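import Mathlib

set_option autoImplicit false

namespace Pool.Agent.Helper98.Engel

universe u

variable {G : Type u} [Group G]

/-- The left-normed commutator `[x, g, ..., g]` with `n` entries `g`,
where `[a, b] = a⁻¹ b⁻¹ a b`. -/
def eng (g : G) : ℕ → G → G
  | 0, x => x
  | n + 1, x => (eng g n x)⁻¹ * g⁻¹ * eng g n x * g

/-- `g` is a left Engel element: for every `x` some `[x, g, ..., g]` is trivial. -/
def IsLeftEngel (g : G) : Prop := ∀ x : G, ∃ n : ℕ, eng g n x = 1

/-- torsion-free group. -/
def TF (G : Type u) [Group G] : Prop := ∀ g : G, ∀ n : ℕ, 0 < n → g ^ n = 1 → g = 1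

theorem eng_zero (g x : G) : eng g 0 x = x := rfl

theorem eng_succ (g x : G) (n : ℕ) :
    eng g (n + 1) x = (eng g n x)⁻¹ * g⁻¹ * eng g n x * g := rfl

theorem eng_succ' (g x : G) (n : ℕ) : eng g (n + 1) x = eng g n (x⁻¹ * g⁻¹ * x * g) := by
  induction n with
  | zero => rfl
  | succ n ih => rw [eng_succ, ih, ← eng_succ]

theorem eng_one (g : G) (n : ℕ) : eng g n (1 : G) = 1 := by
  induction n with
  | zero => rfl
  | succ n ih => rw [eng_succ, ih]; group

theorem eng_eq_one_of_le {g x : G} {m n : ℕ} (h : m ≤ n) (hm : eng g m x = 1) :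
    eng g n x = 1 := by
  induction h with
  | refl => exact hm
  | step _ ih => rw [eng_succ, ih]; group

theorem map_eng {H : Type*} [Group H] (f : G →* H) (g x : G) (n : ℕ) :
    f (eng g n x) = eng (f g) n (f x) := by
  induction n with
  | zero => rfl
  | succ n ih => rw [eng_succ, eng_succ, ← ih]; simp

theorem eng_mem {M : Subgroup G} {g x : G} (hg : g ∈ M) (hx : x ∈ M) (n : ℕ) :
    eng g n x ∈ M := by
  induction n with
  | zero => exact hx
  | succ n ih =>
    rw [eng_succ]
    exact M.mul_mem (M.mul_mem (M.mul_mem (M.inv_mem ih) (M.inv_mem hg)) ih) hg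

/-- conjugation of `eng`. -/
theorem conj_eng (c g x : G) (n : ℕ) :
    c⁻¹ * eng g n x * c = eng (c⁻¹ * g * c) n (c⁻¹ * x * c) := by
  have := map_eng (MulAut.conj c⁻¹).toMonoidHom g x n
  simpa using this

theorem IsLeftEngel.conj {g : G} (h : IsLeftEngel g) (c : G) : IsLeftEngel (c⁻¹ * g * c) := by
  intro x
  obtain ⟨n, hn⟩ := h (c * x * c⁻¹)
  refine ⟨n, ?_⟩
  have := conj_eng c g (c * x * c⁻¹) n
  rw [hn] at this
  have h2 : c⁻¹ * (c * x * c⁻¹) * c = x := by group
  rw [h2] at this
  rw [← this]; group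

/-- In a nilpotent subgroup all elements are (relatively) left Engel. -/
theorem eng_of_nilpotent {M : Subgroup G} (hM : Group.IsNilpotent M) {g x : G} (hg : g ∈ M)
    (hx : x ∈ M) : ∃ n, eng g n x = 1 := by
  obtain ⟨n, hn⟩ := Subgroup.nilpotent_iff_lowerCentralSeries.1 hM
  have key : ∀ k, eng (⟨g, hg⟩ : M) k ⟨x, hx⟩ ∈ (⊤ : Subgroup M).lowerCentralSeries k := by
    intro k
    induction k with
    | zero => exact Subgroup.mem_top _
    | succ k ih =>
      rw [eng_succ]
      have h1 := (Subgroup.lowerCentralSeries_isDescendingCentralSeries (G := M)).2 _ k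
        (Subgroup.inv_mem _ ih) (⟨g, hg⟩ : M)⁻¹
      rw [commutatorElement_def] at h1
      simpa using h1
  refine ⟨n, ?_⟩
  have h2 := key n
  rw [hn, Subgroup.mem_bot] at h2
  have h3 := map_eng M.subtype (⟨g, hg⟩ : M) ⟨x, hx⟩ n
  rw [h2] at h3
  simpa using h3.symm

/-- **(P)**  If `s` acts on `y` as an Engel element, `s ^ n` commutes with `y`, and the relevant
commutators have no torsion, then `s` commutes with `y`. -/
theorem comm_of_pow_comm_aux (htf : TF G) {s : G} {n : ℕ} (hn : 0 < n) :
    ∀ (k : ℕ) (y : G), eng s k y = 1 → s ^ n * y = y * s ^ n → s * y = y * s := by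
  intro k
  induction k with
  | zero =>
    intro y hy _
    rw [eng_zero] at hy
    rw [hy]; simp
  | succ k ih =>
    intro y hy hc
    rw [eng_succ'] at hy
    set w := y⁻¹ * s⁻¹ * y * s with hw
    -- w commutes with s
    have hcw : s ^ n * w = w * s ^ n := by
      have h1 : Commute (s ^ n) y := hc
      have h2 : Commute (s ^ n) s := (Commute.refl s).pow_left n
      exact ((h1.inv_right.mul_right h2.inv_right).mul_right h1).mul_right h2
    have hsw : Commute s w := ih w hy hcw
    -- s⁻¹ y s = y w, so s^(-n) y s^n = y w^n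
    have hstep : ∀ m : ℕ, (s ^ m)⁻¹ * y * s ^ m = y * w ^ m := by
      intro m
      induction m with
      | zero => simp
      | succ m ihm =>
        have h3 : s⁻¹ * y * s = y * w := by rw [hw]; group
        have h4 : s⁻¹ * w ^ m * s = w ^ m := by
          have : Commute s (w ^ m) := hsw.pow_right m
          rw [mul_assoc, ← this.eq]; group
        calc (s ^ (m + 1))⁻¹ * y * s ^ (m + 1)
            = s⁻¹ * ((s ^ m)⁻¹ * y * s ^ m) * s := by rw [pow_succ]; group
          _ = s⁻¹ * (y * w ^ m) * s := by rw [ihm]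
          _ = (s⁻¹ * y * s) * (s⁻¹ * w ^ m * s) := by group
          _ = y * w * w ^ m := by rw [h3, h4]
          _ = y * w ^ (m + 1) := by rw [pow_succ', mul_assoc]
    have h5 := hstep n
    have h6 : (s ^ n)⁻¹ * y * s ^ n = y := by
      rw [mul_assoc, ← hc]; group
    rw [h6] at h5
    have h7 : w ^ n = 1 := by
      have : y * 1 = y * w ^ n := by simpa using h5
      exact (mul_left_cancel this).symm
    have h8 : w = 1 := htf w n hn h7
    have h9 : s⁻¹ * y * s = y := by
      have : s⁻¹ * y * s = y * w := by rw [hw]; group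
      rw [this, h8, mul_one]
    calc s * y = s * (s⁻¹ * y * s) := by rw [h9]
      _ = y * s := by group

theorem comm_of_pow_comm (htf : TF G) {s : G} (hs : IsLeftEngel s) {n : ℕ} (hn : 0 < n)
    {y : G} (h : s ^ n * y = y * s ^ n) : s * y = y * s := by
  obtain ⟨k, hk⟩ := hs y
  exact comm_of_pow_comm_aux htf hn k y hk h

end Pool.Agent.Helper98.Engel
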