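import Mathlib
import Pool.Agent.Helper98.Engel.Basic

set_option autoImplicit false

namespace Pool.Agent.Helper98.Engel

universe u

variable {G : Type u} [Group G]

/-- A subgroup has finite (Pruefer) rank: for some `r` each of its finitely generated subgroups
is generated by at most `r` elements. -/
def FinRank (A : Subgroup G) : Prop :=
  ∃ r : ℕ, ∀ H : Subgroup G, H ≤ A → H.FG →
    ∃ T : Finset G, T.card ≤ r ∧ Subgroup.closure (T : Set G) = H

/-- A rank function for the subgroups of `A`: monotone, and constant only on pairs `X ≤ Y` for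
which every element of `Y` has a power in `X`. -/
def RF (A : Subgroup G) : Prop :=
  ∃ ρ : Subgroup G → ℕ, Monotone ρ ∧ ∀ X Y : Subgroup G, X ≤ Y → Y ≤ A → ρ X = ρ Y →
    ∀ y ∈ Y, ∃ n : ℕ, 0 < n ∧ y ^ n ∈ X

/-- All abelian subgroups have a rank function. -/
def AbRF (G : Type u) [Group G] : Prop :=
  ∀ A : Subgroup G, (∀ a ∈ A, ∀ b ∈ A, a * b = b * a) → RF A

theorem RF.mono {A B : Subgroup G} (h : A ≤ B) (hB : RF B) : RF A := by
  obtain ⟨ρ, h1, h2⟩ := hB
  exact ⟨ρ, h1, fun X Y hXY hY => h2 X Y hXY (hY.trans h)⟩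

/-- pull back along a homomorphism which is injective on `A`. -/
theorem RF.of_injOn {P : Type*} [Group P] (f : G →* P) {A : Subgroup G} {B : Subgroup P}
    (hB : RF B) (hAB : ∀ a ∈ A, f a ∈ B) (hf : ∀ a ∈ A, f a = 1 → a = 1) : RF A := by
  obtain ⟨ρ, h1, h2⟩ := hB
  refine ⟨fun X => ρ (X.map f), fun X Y h => h1 (Subgroup.map_mono h), ?_⟩
  intro X Y hXY hY hr y hy
  obtain ⟨n, hn, hn2⟩ := h2 (X.map f) (Y.map f) (Subgroup.map_mono hXY)
    (by rintro _ ⟨y, hy, rfl⟩; exact hAB y (hY hy)) hr (f y) ⟨y, hy, rfl⟩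
  obtain ⟨x, hx, hx2⟩ := hn2
  refine ⟨n, hn, ?_⟩
  have h3 : f (y ^ n * x⁻¹) = 1 := by
    rw [map_mul, map_pow, map_inv, ← hx2]; simp
  have h4 : y ^ n * x⁻¹ = 1 :=
    hf _ (A.mul_mem (A.pow_mem (hY hy) n) (A.inv_mem (hY (hXY hx)))) h3
  have h5 : y ^ n = x := by
    rw [mul_inv_eq_one] at h4; exact h4
  rw [h5]; exact hx

/-- push forward. -/
theorem RF.map {P : Type*} [Group P] (f : G →* P) {A : Subgroup G} (hA : RF A) :
    RF (A.map f) := by
  obtain ⟨ρ, h1, h2⟩ := hA
  refine ⟨fun X => ρ (X.comap f ⊓ A), fun X Y h => h1 (inf_le_inf_right _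
    (Subgroup.comap_mono h)), ?_⟩
  intro X Y hXY hY hr y hy
  obtain ⟨a, ha, rfl⟩ := hY hy
  obtain ⟨n, hn, hn2⟩ := h2 (X.comap f ⊓ A) (Y.comap f ⊓ A)
    (inf_le_inf_right _ (Subgroup.comap_mono hXY)) inf_le_right hr a
    ⟨Subgroup.mem_comap.2 hy, ha⟩
  refine ⟨n, hn, ?_⟩
  have h3 := Subgroup.mem_comap.1 hn2.1
  simpa using h3

/-- extensions. -/
theorem RF.ext {P : Type*} [Group P] (f : G →* P) {A : Subgroup G} (hP : RF (A.map f))
    (hK : RF (A ⊓ f.ker)) (hc : ∀ u ∈ A ⊓ f.ker, ∀ x ∈ A, u * x = x * u) : RF A := by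
  obtain ⟨ρ, h1, h2⟩ := hP
  obtain ⟨σ, h3, h4⟩ := hK
  refine ⟨fun X => ρ (X.map f) + σ (X ⊓ f.ker), fun X Y h => add_le_add
    (h1 (Subgroup.map_mono h)) (h3 (inf_le_inf_right _ h)), ?_⟩
  intro X Y hXY hY hr y hy
  have e1 : ρ (X.map f) ≤ ρ (Y.map f) := h1 (Subgroup.map_mono hXY)
  have e2 : σ (X ⊓ f.ker) ≤ σ (Y ⊓ f.ker) := h3 (inf_le_inf_right _ hXY)
  have e3 : ρ (X.map f) = ρ (Y.map f) := by simp only at hr; omega
  have e4 : σ (X ⊓ f.ker) = σ (Y ⊓ f.ker) := by simp only at hr; omega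
  obtain ⟨n, hn, x, hx, hx2⟩ := h2 _ _ (Subgroup.map_mono hXY) (Subgroup.map_mono hY) e3 (f y)
    ⟨y, hy, rfl⟩
  have hu : y ^ n * x⁻¹ ∈ Y ⊓ f.ker := by
    refine Subgroup.mem_inf.2 ⟨Y.mul_mem (Y.pow_mem hy n) (Y.inv_mem (hXY hx)), ?_⟩
    rw [MonoidHom.mem_ker, map_mul, map_pow, map_inv, ← hx2]; simp
  obtain ⟨m, hm, hm2⟩ := h4 _ _ (inf_le_inf_right _ hXY) (inf_le_inf_right _ hY) e4 _ hu
  refine ⟨n * m, Nat.mul_pos hn hm, ?_⟩
  have hcomm : Commute (y ^ n * x⁻¹) x :=
    hc _ ⟨hY hu.1, hu.2⟩ x (hY (hXY hx))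
  have h5 : y ^ (n * m) = (y ^ n * x⁻¹) ^ m * x ^ m := by
    rw [← hcomm.mul_pow, pow_mul]; congr 1; group
  rw [h5]
  exact X.mul_mem hm2.1 (X.pow_mem hx m)

/-- An abelian subgroup of finite rank has a rank function. -/
theorem RF.of_finRank {A : Subgroup G} (hc : ∀ a ∈ A, ∀ b ∈ A, a * b = b * a)
    (hr : FinRank A) : RF A := by
  classical
  obtain ⟨r, hr⟩ := hr
  let iA : CommGroup A :=
    { (inferInstance : Group A) with
      mul_comm := fun a b => Subtype.ext (hc a a.2 b b.2) }
  -- the subgroup of `Additive A` attached to a subgroup of `G`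
  let sm : Subgroup G → Submodule ℤ (Additive A) := fun X =>
    AddSubgroup.toIntSubmodule (Subgroup.toAddSubgroup (X.subgroupOf A))
  have hsm : ∀ X (a : A), (Additive.ofMul a) ∈ sm X ↔ (a : G) ∈ X := by
    intro X a
    exact Subgroup.mem_subgroupOf
  have hmono : Monotone sm := by
    intro X Y h x hx
    exact h hx
  have hrank : Module.rank ℤ (Additive A) ≤ r := by
    apply rank_le
    intro s hs
    obtain ⟨T, hT1, hT2⟩ := hr (Subgroup.closure
      ((s.image (fun a : Additive A => ((Additive.toMul a : A) : G)) : Finset G) : Set G))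
      (by
        rw [Subgroup.closure_le]
        intro x hx
        rw [Finset.coe_image] at hx
        obtain ⟨a, _, rfl⟩ := hx
        exact (Additive.toMul a).2) ⟨_, rfl⟩
    have hTA : ∀ t ∈ T, t ∈ A := by
      intro t ht
      have h1 : t ∈ Subgroup.closure (T : Set G) := Subgroup.subset_closure ht
      rw [hT2] at h1
      refine (?_ : Subgroup.closure _ ≤ A) h1
      rw [Subgroup.closure_le]
      intro x hx
      rw [Finset.coe_image] at hx
      obtain ⟨a, _, rfl⟩ := hx
      exact (Additive.toMul a).2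
    let w : Finset (Additive A) := T.attach.image (fun t => Additive.ofMul (⟨t.1, hTA t.1 t.2⟩ : A))
    have hw : w.card ≤ r := by
      refine Finset.card_image_le.trans ?_
      rw [Finset.card_attach]; exact hT1
    have hspan : Set.range (fun i : s => (i : Additive A)) ≤
        (Submodule.span ℤ (w : Set (Additive A)) : Set (Additive A)) := by
      rintro _ ⟨a, rfl⟩
      -- `a` belongs to the closure of `T`
      have h1 : ((Additive.toMul (a : Additive A) : A) : G) ∈ Subgroup.closure (T : Set G) := by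
        rw [hT2]
        apply Subgroup.subset_closure
        rw [Finset.coe_image]
        exact ⟨a, a.2, rfl⟩
      have key : ∀ g ∈ Subgroup.closure (T : Set G), ∀ hg : g ∈ A,
          Additive.ofMul (⟨g, hg⟩ : A) ∈ Submodule.span ℤ (w : Set (Additive A)) := by
        intro g hg
        have hle : Subgroup.closure (T : Set G) ≤ A := by
          rw [Subgroup.closure_le]; exact fun t ht => hTA t ht
        induction hg using Subgroup.closure_induction with
        | mem x hx =>
          intro hg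
          apply Submodule.subset_span
          have : Additive.ofMul (⟨x, hg⟩ : A) ∈ w := by
            refine Finset.mem_image.2 ⟨⟨x, hx⟩, Finset.mem_attach _ _, rfl⟩
          exact this
        | one =>
          intro hg
          exact Submodule.zero_mem _
        | mul x y hx hy ihx ihy =>
          intro hg
          exact Submodule.add_mem _ (ihx (hle hx)) (ihy (hle hy))
        | inv x hx ihx =>
          intro hg
          exact Submodule.neg_mem _ (ihx (hle hx))
      exact key _ h1 (Additive.toMul (a : Additive A)).2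
    have h2 := linearIndependent_le_span' (R := ℤ) (fun i : s => (i : Additive A)) hs
      (w : Set (Additive A)) hspan
    have h3 : ((s.card : ℕ) : Cardinal.{u}) ≤ ((w.card : ℕ) : Cardinal.{u}) := by
      simpa using h2
    exact (Nat.cast_le.1 h3).trans hw
  have hlt : ∀ N : Submodule ℤ (Additive A), Module.rank ℤ N < Cardinal.aleph0 := by
    intro N
    exact lt_of_le_of_lt ((Submodule.rank_le N).trans hrank) (Cardinal.natCast_lt_aleph0)
  refine ⟨fun X => (Module.rank ℤ (sm X)).toNat, ?_, ?_⟩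
  · intro X Y h
    exact Cardinal.toNat_le_toNat (Submodule.rank_mono (hmono h)) (hlt _)
  · intro X Y hXY hY he y hy
    have he' : Module.rank ℤ (sm X) = Module.rank ℤ (sm Y) := by
      apply Cardinal.toNat_injOn (hlt _) (hlt _) he
    -- the quotient of `sm Y` by `sm X` has rank zero
    let N : Submodule ℤ (sm Y) := (sm X).submoduleOf (sm Y)
    have hN : Module.rank ℤ N = Module.rank ℤ (sm X) := by
      apply LinearEquiv.rank_eq
      exact Submodule.submoduleOfEquivOfLe (hmono hXY)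
    have h1 := Submodule.rank_quotient_add_rank N
    rw [hN, he'] at h1
    have h2 : Module.rank ℤ ((sm Y) ⧸ N) = 0 := by
      obtain ⟨a, ha⟩ := Cardinal.lt_aleph0.1 (lt_of_le_of_lt (le_of_le_of_eq
        (self_le_add_right _ _) h1) (hlt (sm Y)))
      obtain ⟨b, hb⟩ := Cardinal.lt_aleph0.1 (hlt (sm Y))
      rw [ha, hb] at h1
      rw [ha]
      have : a + b = b := by exact_mod_cast h1
      have : a = 0 := by omega
      rw [this]; simp
    rw [rank_eq_zero_iff] at h2
    obtain ⟨a, ha, ha2⟩ := h2 (Submodule.Quotient.mk ⟨Additive.ofMul (⟨y, hY hy⟩ : A), hy⟩)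
    rw [← Submodule.Quotient.mk_smul, Submodule.Quotient.mk_eq_zero] at ha2
    have h3 : a • (Additive.ofMul (⟨y, hY hy⟩ : A)) ∈ sm X := ha2
    have h4 : y ^ a ∈ X := by
      have := (hsm X ((⟨y, hY hy⟩ : A) ^ a)).1 (by simpa using h3)
      simpa using this
    refine ⟨a.natAbs, Int.natAbs_pos.2 ha, ?_⟩
    rcases Int.natAbs_eq a with h | h
    · rw [h, zpow_natCast] at h4; exact h4
    · rw [h, zpow_neg, zpow_natCast] at h4
      exact (Subgroup.inv_mem_iff X).1 h4

end Pool.Agent.Helper98.Engel
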