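import Mathlib
import Pool.Agent.Helper98.Engel.Basic
import Pool.Agent.Helper98.Engel.Rank

set_option autoImplicit false

namespace Pool.Agent.Helper98.Engel

universe u

variable {G : Type u} [Group G]

/-- Every finitely generated subgroup of `N` is nilpotent. -/
def LocallyNilpotent (N : Subgroup G) : Prop :=
  ∀ H : Subgroup G, H ≤ N → H.FG → Group.IsNilpotent H

/-- The subgroup generated by the left Engel elements. -/
def engelClosure (G : Type u) [Group G] : Subgroup G :=
  Subgroup.closure {g : G | IsLeftEngel g}

end Pool.Agent.Helper98.Engel
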