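import Mathlib
import Pool.Agent.Helper98.Engel.Rank

set_option autoImplicit false

namespace Pool.Agent.Helper98.Engel

open Subgroup

universe u

/-- locally nilpotent group. -/
def LNg (G : Type u) [Group G] : Prop :=
  ∀ S : Finset G, Group.IsNilpotent (closure (S : Set G))

/-- centralisers are isolated. -/
def RC (G : Type u) [Group G] : Prop :=
  ∀ (s y : G) (n : ℕ), 0 < n → s ^ n * y = y * s ^ n → s * y = y * s

variable {G : Type u} [Group G]

theorem LNg.engel (h : LNg G) (s : G) : IsLeftEngel s := by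
  classical
  intro x
  have hN := h {s, x}
  exact eng_of_nilpotent hN (subset_closure (by simp)) (subset_closure (by simp))

theorem LNg.rc (h : LNg G) (ht : TF G) : RC G := fun s _ _ hn hc =>
  comm_of_pow_comm ht (h.engel s) hn hc

theorem LNg.of_surjective {P : Type*} [Group P] (h : LNg G) (f : G →* P)
    (hf : Function.Surjective f) : LNg P := by
  classical
  intro S
  choose g hg using hf
  have h1 : closure (S : Set P) = (closure ((S.image g : Finset G) : Set G)).map f := by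
    rw [MonoidHom.map_closure]
    congr 1
    ext x
    simp only [Finset.coe_image, Set.mem_image, Finset.mem_coe]
    constructor
    · intro hx
      exact ⟨g x, ⟨x, hx, rfl⟩, hg x⟩
    · rintro ⟨_, ⟨y, hy, rfl⟩, rfl⟩
      rw [hg]; exact hy
  have h2 := h (S.image g)
  rw [h1]
  exact Group.nilpotent_of_surjective (f.subgroupMap _) (f.subgroupMap_surjective _)

theorem RC.tf_quot (hr : RC G) : TF (G ⧸ center G) := by
  intro x n hn hx
  obtain ⟨g, rfl⟩ := QuotientGroup.mk_surjective x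
  rw [← QuotientGroup.mk_pow, QuotientGroup.eq_one_iff] at hx
  rw [QuotientGroup.eq_one_iff, mem_center_iff]
  intro y
  exact (hr g y n hn (mem_center_iff.1 hx y).symm).symm

/-! ### relative rank functions -/

/-- rank function for the subgroups between `Z` and `A`. -/
def RFm (Z A : Subgroup G) : Prop :=
  ∃ ρ : Subgroup G → ℕ, Monotone ρ ∧ ∀ X Y : Subgroup G, Z ≤ X → X ≤ Y → Y ≤ A → ρ X = ρ Y →
    ∀ y ∈ Y, ∃ n : ℕ, 0 < n ∧ y ^ n ∈ X

theorem RF.rfm {A : Subgroup G} (h : RF A) (Z : Subgroup G) : RFm Z A := by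
  obtain ⟨ρ, h1, h2⟩ := h
  exact ⟨ρ, h1, fun X Y _ hXY hY => h2 X Y hXY hY⟩

theorem RFm.mono {Z A B : Subgroup G} (h : A ≤ B) (hB : RFm Z B) : RFm Z A := by
  obtain ⟨ρ, h1, h2⟩ := hB
  exact ⟨ρ, h1, fun X Y hZ hXY hY => h2 X Y hZ hXY (hY.trans h)⟩

theorem RFm.ext {P : Type*} [Group P] {Z A : Subgroup G} (f : A →* P)
    (hP : RF f.range) (hK : RFm Z (f.ker.map A.subtype))
    (hZ : ∀ z (h : z ∈ A), z ∈ Z → f ⟨z, h⟩ = 1) (hZA : Z ≤ A)
    (hc : ∀ u ∈ A, ∀ x ∈ A, ∀ m : ℕ, ∃ z ∈ Z, (u * x) ^ m = u ^ m * x ^ m * z) : RFm Z A := by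
  obtain ⟨ρ, h1, h2⟩ := hP
  obtain ⟨σ, h3, h4⟩ := hK
  set K := f.ker.map A.subtype with hKdef
  have hKmem : ∀ x (hx : x ∈ A), x ∈ K ↔ f ⟨x, hx⟩ = 1 := by
    intro x hx
    constructor
    · rintro ⟨y, hy, hy2⟩
      have : y = ⟨x, hx⟩ := Subtype.ext hy2
      rw [← this]; exact hy
    · intro h
      exact ⟨⟨x, hx⟩, h, rfl⟩
  refine ⟨fun X => ρ ((X.subgroupOf A).map f) + σ (X ⊓ K), fun X Y h => add_le_add
    (h1 (map_mono (fun x hx => h hx))) (h3 (inf_le_inf_right _ h)), ?_⟩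
  intro X Y hZX hXY hY hr y hy
  have hXYs : X.subgroupOf A ≤ Y.subgroupOf A := fun x hx => hXY hx
  have e1 : ρ ((X.subgroupOf A).map f) ≤ ρ ((Y.subgroupOf A).map f) := h1 (map_mono hXYs)
  have e2 : σ (X ⊓ K) ≤ σ (Y ⊓ K) := h3 (inf_le_inf_right _ hXY)
  have e3 : ρ ((X.subgroupOf A).map f) = ρ ((Y.subgroupOf A).map f) := by
    simp only at hr; omega
  have e4 : σ (X ⊓ K) = σ (Y ⊓ K) := by simp only at hr; omega
  obtain ⟨n, hn, x, hx, hx2⟩ := h2 _ _ (map_mono hXYs)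
    (by rintro _ ⟨w, _, rfl⟩; exact ⟨w, rfl⟩) e3 (f ⟨y, hY hy⟩) ⟨⟨y, hY hy⟩, hy, rfl⟩
  have hxX : (x : G) ∈ X := hx
  have hu0 : y ^ n * (x : G)⁻¹ ∈ A := A.mul_mem (A.pow_mem (hY hy) n) (A.inv_mem x.2)
  have hu : y ^ n * (x : G)⁻¹ ∈ Y ⊓ K := by
    refine mem_inf.2 ⟨Y.mul_mem (Y.pow_mem hy n) (Y.inv_mem (hXY hxX)), ?_⟩
    rw [hKmem _ hu0]
    have : (⟨y ^ n * (x : G)⁻¹, hu0⟩ : A) = (⟨y, hY hy⟩ : A) ^ n * x⁻¹ := by
      ext; simp
    rw [this, map_mul, map_pow, map_inv, ← hx2]; simp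
  have hZK : Z ≤ K := fun z hz => (hKmem z (hZA hz)).2 (hZ z (hZA hz) hz)
  obtain ⟨m, hm, hm2⟩ := h4 _ _ (le_inf hZX hZK) (inf_le_inf_right _ hXY) inf_le_right e4 _ hu
  refine ⟨n * m, Nat.mul_pos hn hm, ?_⟩
  obtain ⟨z, hz, hz2⟩ := hc _ hu0 _ x.2 m
  have h5 : y ^ (n * m) = (y ^ n * (x : G)⁻¹ * x) ^ m := by
    rw [pow_mul]; congr 1; group
  rw [h5, hz2]
  exact X.mul_mem (X.mul_mem (mem_inf.1 hm2).1 (X.pow_mem hxX m)) (hZX hz)

/-- in a subgroup with a rank function there is a finite subset whose closure is large. -/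
theorem exists_finset {A : Subgroup G} (h : RF A) : ∃ S : Finset G, (S : Set G) ⊆ A ∧
    ∀ a ∈ A, ∃ n : ℕ, 0 < n ∧ a ^ n ∈ closure (S : Set G) := by
  classical
  obtain ⟨ρ, h1, h2⟩ := h
  -- choose `S` with maximal `ρ`
  let Q : Set ℕ := {k | ∃ S : Finset G, (S : Set G) ⊆ A ∧ ρ (closure (S : Set G)) = k}
  have hQ : Q.Nonempty := ⟨_, ∅, by simp, rfl⟩
  have hb : BddAbove Q := by
    refine ⟨ρ A, ?_⟩
    rintro k ⟨S, hS, rfl⟩
    exact h1 (by rw [closure_le]; exact hS)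
  obtain ⟨S, hS, hS2⟩ := Nat.sSup_mem hQ hb
  refine ⟨S, hS, ?_⟩
  intro a ha
  have hS' : ((insert a S : Finset G) : Set G) ⊆ A := by
    rw [Finset.coe_insert]; exact Set.insert_subset ha hS
  have hle : closure (S : Set G) ≤ closure ((insert a S : Finset G) : Set G) :=
    closure_mono (by simp)
  have h3 : ρ (closure ((insert a S : Finset G) : Set G)) ≤ ρ (closure (S : Set G)) := by
    rw [hS2]; exact le_csSup hb ⟨_, hS', rfl⟩
  exact h2 _ _ hle (by rw [closure_le]; exact hS') (le_antisymm (h1 hle) h3) a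
    (subset_closure (by simp))

/-- maximal abelian subgroups below `B` and above a given one. -/
theorem exists_max_abelian (B A₀ : Subgroup G) (hAB : A₀ ≤ B)
    (hA : ∀ a ∈ A₀, ∀ b ∈ A₀, a * b = b * a) :
    ∃ A : Subgroup G, A₀ ≤ A ∧ A ≤ B ∧ (∀ a ∈ A, ∀ b ∈ A, a * b = b * a) ∧
      ∀ x ∈ B, (∀ a ∈ A, x * a = a * x) → x ∈ A := by
  let 𝒜 : Set (Subgroup G) := {A | A ≤ B ∧ ∀ a ∈ A, ∀ b ∈ A, a * b = b * a}
  obtain ⟨A, hle, hmax⟩ := zorn_le_nonempty₀ 𝒜 (by
    intro c hc hchain y hy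
    refine ⟨sSup c, ⟨?_, ?_⟩, fun z hz => le_sSup hz⟩
    · exact sSup_le (fun z hz => (hc hz).1)
    · intro a ha b hb
      rw [mem_sSup_of_directedOn ⟨y, hy⟩ hchain.directedOn] at ha hb
      obtain ⟨X, hX, haX⟩ := ha
      obtain ⟨Y, hY, hbY⟩ := hb
      rcases hchain.total hX hY with h | h
      · exact (hc hY).2 a (h haX) b hbY
      · exact (hc hX).2 a haX b (h hbY)) A₀ ⟨hAB, hA⟩
  refine ⟨A, hle, hmax.prop.1, hmax.prop.2, ?_⟩
  intro x hx hcomm
  have h1 : A ⊔ zpowers x ∈ 𝒜 := by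
    refine ⟨sup_le hmax.prop.1 (by rw [zpowers_le]; exact hx), ?_⟩
    have hxc : x ∈ centralizer (A : Set G) := by
      rw [mem_centralizer_iff]; intro a ha; exact (hcomm a ha).symm
    have hA1 : A ≤ centralizer (A : Set G) := by
      intro a ha; rw [mem_centralizer_iff]; intro b hb; exact hmax.prop.2 b hb a ha
    have h2 : A ⊔ zpowers x ≤ centralizer (A : Set G) :=
      sup_le hA1 (by rw [zpowers_le]; exact hxc)
    have h3 : A ⊔ zpowers x ≤ centralizer (zpowers x : Set G) := by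
      refine sup_le ?_ ?_
      · intro a ha
        rw [mem_centralizer_iff]
        rintro _ ⟨k, rfl⟩
        have : Commute x a := hcomm a ha
        exact (this.zpow_left k).eq
      · rw [zpowers_le, mem_centralizer_iff]
        rintro _ ⟨k, rfl⟩
        exact ((Commute.refl x).zpow_left k).eq
    intro a ha b hb
    have h4 : A ⊔ zpowers x ≤ centralizer ((A ⊔ zpowers x : Subgroup G) : Set G) := by
      rw [le_centralizer_iff]
      refine sup_le ?_ ?_
      · rw [le_centralizer_iff]; exact h2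
      · rw [le_centralizer_iff]; exact h3
    exact (mem_centralizer_iff.1 (h4 hb) a ha)
  have h2 := hmax.le_of_ge h1 le_sup_left
  exact h2 (mem_sup_right (mem_zpowers x))

end Pool.Agent.Helper98.Engel
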