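import Mathlib
import Pool.Agent.Helper98.Engel.Malcev

set_option autoImplicit false

namespace Pool.Agent.Helper98.Engel

open Subgroup
open scoped commutatorElement

universe u

variable {G : Type u} [Group G]

/-- powers of a product of two elements commuting modulo the centre. -/
theorem mul_pow_mod_center {u x : G} (h : u⁻¹ * x⁻¹ * u * x ∈ center G) (m : ℕ) :
    ∃ z ∈ center G, (u * x) ^ m = u ^ m * x ^ m * z := by
  have h1 : Commute (QuotientGroup.mk' (center G) u) (QuotientGroup.mk' (center G) x) := by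
    have h2 : (QuotientGroup.mk' (center G)) (u⁻¹ * x⁻¹ * u * x) = 1 :=
      (QuotientGroup.eq_one_iff _).2 h
    rw [map_mul, map_mul, map_mul, map_inv, map_inv] at h2
    have h3 : (QuotientGroup.mk' (center G) u) * (QuotientGroup.mk' (center G) x) =
      (QuotientGroup.mk' (center G) x) * (QuotientGroup.mk' (center G) u) := by
      set a := QuotientGroup.mk' (center G) u
      set b := QuotientGroup.mk' (center G) x
      calc a * b = b * a * (a⁻¹ * b⁻¹ * a * b) := by group
        _ = b * a := by rw [h2, mul_one]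
    exact h3
  refine ⟨(u ^ m * x ^ m)⁻¹ * (u * x) ^ m, ?_, by group⟩
  have h4 : (QuotientGroup.mk' (center G)) ((u ^ m * x ^ m)⁻¹ * (u * x) ^ m) = 1 := by
    rw [map_mul, map_inv, map_mul, map_pow, map_pow, map_pow, map_mul, h1.mul_pow]
    simp
  exact (QuotientGroup.eq_one_iff _).1 h4

/-- one step: adding a commuting condition. -/
theorem rfm_step (hab : AbRF G) {C : Subgroup G} (hZ : center G ≤ C)
    (hC : ∀ a ∈ C, ∀ b ∈ C, a⁻¹ * b⁻¹ * a * b ∈ center G) {s : G} (hs : s ∈ C)
    (h : RFm (center G) (C ⊓ centralizer {s})) : RFm (center G) C := by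
  have hcen : ∀ a ∈ C, ∀ b ∈ C, ∀ g, (a⁻¹ * b⁻¹ * a * b) * g = g * (a⁻¹ * b⁻¹ * a * b) :=
    fun a ha b hb g => (mem_center_iff.1 (hC a ha b hb) g).symm
  let f : C →* G := MonoidHom.mk' (fun x => s⁻¹ * (x : G)⁻¹ * s * x) (by
    intro x y
    have h1 := hcen s hs x x.2
    calc s⁻¹ * ((x * y : C) : G)⁻¹ * s * ((x * y : C) : G)
        = s⁻¹ * (y : G)⁻¹ * s * ((s⁻¹ * (x : G)⁻¹ * s * x) * y) := by
          simp only [coe_mul]; group
      _ = s⁻¹ * (y : G)⁻¹ * s * (y * (s⁻¹ * (x : G)⁻¹ * s * x)) := by rw [h1 y]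
      _ = (s⁻¹ * (y : G)⁻¹ * s * y) * (s⁻¹ * (x : G)⁻¹ * s * x) := by group
      _ = (s⁻¹ * (x : G)⁻¹ * s * x) * (s⁻¹ * (y : G)⁻¹ * s * y) := (h1 _).symm)
  have hf : ∀ x : C, f x = s⁻¹ * (x : G)⁻¹ * s * x := fun x => rfl
  apply RFm.ext f
  · apply RF.mono (B := center G)
    · rintro _ ⟨x, rfl⟩
      exact hC s hs x x.2
    · exact hab _ (fun a ha b _ => (mem_center_iff.1 ha b).symm)
  · apply h.mono
    rintro _ ⟨x, hx, rfl⟩
    refine mem_inf.2 ⟨x.2, ?_⟩
    rw [mem_centralizer_singleton_iff]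
    have h1 : s⁻¹ * (x : G)⁻¹ * s * x = 1 := hx
    calc (C.subtype x) * s = s * ((C.subtype x) : G) * (s⁻¹ * (x : G)⁻¹ * s * x)⁻¹ := by
          simp only [coe_subtype]; group
      _ = s * (C.subtype x) := by rw [h1]; simp
  · intro z hz hz2
    rw [hf]
    have := mem_center_iff.1 hz2 s
    calc s⁻¹ * z⁻¹ * s * z = s⁻¹ * z⁻¹ * (s * z) := by group
      _ = s⁻¹ * z⁻¹ * (z * s) := by rw [this]
      _ = 1 := by group
  · exact hZ
  · intro u hu x hx m
    exact mul_pow_mod_center (hC u hu x hx) m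

theorem rfm_steps (hab : AbRF G) (S : Finset G) : ∀ {C : Subgroup G}, center G ≤ C →
    (∀ a ∈ C, ∀ b ∈ C, a⁻¹ * b⁻¹ * a * b ∈ center G) → (S : Set G) ⊆ C →
    (∀ a ∈ S, ∀ b ∈ S, a * b = b * a) →
    RFm (center G) (C ⊓ centralizer (S : Set G)) → RFm (center G) C := by
  classical
  induction S using Finset.induction_on with
  | empty =>
    intro C _ _ _ _ h
    apply h.mono
    refine le_inf le_rfl ?_
    intro x _
    rw [mem_centralizer_iff]
    intro y hy
    simp at hy
  | insert s S hsS ih =>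
    intro C hZ hC hS hcomm h
    rw [Finset.coe_insert, Set.insert_subset_iff] at hS
    apply rfm_step hab hZ hC hS.1
    apply ih
    · refine le_inf hZ ?_
      intro z hz
      rw [mem_centralizer_singleton_iff]
      exact (mem_center_iff.1 hz s).symm
    · intro a ha b hb
      exact hC a (mem_inf.1 ha).1 b (mem_inf.1 hb).1
    · intro a ha
      refine mem_inf.2 ⟨hS.2 ha, ?_⟩
      rw [mem_centralizer_singleton_iff]
      exact hcomm a (Finset.mem_insert_of_mem ha) s (Finset.mem_insert_self _ _)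
    · intro a ha b hb
      exact hcomm a (Finset.mem_insert_of_mem ha) b (Finset.mem_insert_of_mem hb)
    · apply h.mono
      rintro x hx
      obtain ⟨h1, h2⟩ := mem_inf.1 hx
      obtain ⟨h3, h4⟩ := mem_inf.1 h1
      refine mem_inf.2 ⟨h3, ?_⟩
      rw [mem_centralizer_iff]
      intro y hy
      rw [Finset.coe_insert] at hy
      rcases hy with rfl | hy
      · exact (mem_centralizer_singleton_iff.1 h4).symm
      · exact mem_centralizer_iff.1 h2 y hy

/-- abelian subgroups of the central quotient have a rank function. -/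
theorem AbRF.quot (hab : AbRF G) (hr : RC G) : AbRF (G ⧸ center G) := by
  intro B' hB'
  set B := B'.comap (QuotientGroup.mk' (center G)) with hB
  have hZB : center G ≤ B := by
    intro z hz
    rw [hB, mem_comap]
    have : QuotientGroup.mk' (center G) z = 1 := (QuotientGroup.eq_one_iff _).2 hz
    rw [this]; exact B'.one_mem
  have hBc : ∀ a ∈ B, ∀ b ∈ B, a⁻¹ * b⁻¹ * a * b ∈ center G := by
    intro a ha b hb
    apply (QuotientGroup.eq_one_iff _).1
    have h1 := hB' _ (mem_comap.1 ha) _ (mem_comap.1 hb)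
    have h2 : (QuotientGroup.mk' (center G)) (a⁻¹ * b⁻¹ * a * b) = 1 := by
      rw [map_mul, map_mul, map_mul, map_inv, map_inv]
      rw [mul_assoc, h1]; group
    exact h2
  obtain ⟨A, hZA, hAB, hAc, hAm⟩ := exists_max_abelian B (center G) hZB
    (fun a ha b _ => (mem_center_iff.1 ha b).symm)
  have hRA := hab A hAc
  obtain ⟨S, hSA, hS⟩ := exists_finset hRA
  have hm : RFm (center G) B := by
    apply rfm_steps hab S hZB hBc (hSA.trans hAB) (fun a ha b hb => hAc a (hSA ha) b (hSA hb))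
    apply RFm.mono (B := A) _ (hRA.rfm _)
    intro x hx
    obtain ⟨h1, h2⟩ := mem_inf.1 hx
    apply hAm x h1
    intro a ha
    obtain ⟨n, hn, hn2⟩ := hS a ha
    have h3 : x ∈ centralizer ((closure (S : Set G) : Subgroup G) : Set G) := by
      rw [centralizer_closure]; exact h2
    exact (hr a x n hn (mem_centralizer_iff.1 h3 _ hn2)).symm
  obtain ⟨ρ, h1, h2⟩ := hm
  refine ⟨fun X => ρ (X.comap (QuotientGroup.mk' (center G))), fun X Y h => h1 (comap_mono h), ?_⟩
  intro X Y hXY hY hρ y hy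
  obtain ⟨g, rfl⟩ := QuotientGroup.mk_surjective y
  obtain ⟨n, hn, hn2⟩ := h2 (X.comap (QuotientGroup.mk' (center G)))
    (Y.comap (QuotientGroup.mk' (center G))) (by
      intro z hz
      rw [mem_comap]
      have : QuotientGroup.mk' (center G) z = 1 := (QuotientGroup.eq_one_iff _).2 hz
      rw [this]; exact X.one_mem) (comap_mono hXY) (comap_mono hY) hρ g hy
  exact ⟨n, hn, by simpa using hn2⟩

/-- a non-trivial torsion-free locally nilpotent group whose abelian subgroups have rank functions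
has a non-trivial centre. -/
theorem center_ne_bot_of_ln (ht : TF G) (hln : LNg G) (hab : AbRF G) [Nontrivial G] :
    center G ≠ ⊥ := by
  classical
  have hr := hln.rc ht
  obtain ⟨A, -, -, hAc, hAm⟩ := exists_max_abelian (⊤ : Subgroup G) ⊥ bot_le (by
    intro a ha b hb
    rw [mem_bot] at ha hb
    rw [ha, hb])
  have hRA := hab A hAc
  obtain ⟨S, hSA, hS⟩ := exists_finset hRA
  obtain ⟨ρ, hρ1, hρ2⟩ := hRA
  obtain ⟨g₀, hg₀⟩ := exists_ne (1 : G)
  have hcent : ∀ F : Finset G, S ⊆ F → centralizer (F : Set G) ≤ A := by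
    intro F hF x hx
    apply hAm x (mem_top _)
    intro a ha
    obtain ⟨n, hn, hn2⟩ := hS a ha
    have h3 : x ∈ centralizer ((closure (S : Set G) : Subgroup G) : Set G) := by
      rw [centralizer_closure]
      exact centralizer_le (by exact_mod_cast hF) hx
    exact (hr a x n hn (mem_centralizer_iff.1 h3 _ hn2)).symm
  let Q : Set ℕ := {k | ∃ F : Finset G, insert g₀ S ⊆ F ∧ ρ (centralizer (F : Set G)) = k}
  have hQ : Q.Nonempty := ⟨_, insert g₀ S, le_rfl, rfl⟩
  obtain ⟨F, hF, hF2⟩ := Nat.sInf_mem hQ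
  have hSF : S ⊆ F := (Finset.subset_insert _ _).trans hF
  have hle : centralizer (F : Set G) ≤ center G := by
    intro c hc
    rw [mem_center_iff]
    intro m
    have h1 : centralizer ((insert m F : Finset G) : Set G) ≤ centralizer (F : Set G) :=
      centralizer_le (by simp)
    have h2 : ρ (centralizer (F : Set G)) ≤ ρ (centralizer ((insert m F : Finset G) : Set G)) := by
      rw [hF2]
      exact Nat.sInf_le ⟨_, hF.trans (Finset.subset_insert _ _), rfl⟩
    obtain ⟨n, hn, hn2⟩ := hρ2 _ _ h1 (hcent F hSF) (le_antisymm (hρ1 h1) h2) c hc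
    have h3 := mem_centralizer_iff.1 hn2 m (by simp)
    exact (hr c m n hn h3.symm).symm
  -- the centre of the closure of `F`
  have hN := hln F
  have hg₀F : g₀ ∈ closure (F : Set G) := subset_closure (hF (Finset.mem_insert_self _ _))
  have : Nontrivial (closure (F : Set G)) :=
    ⟨⟨⟨g₀, hg₀F⟩, 1, fun h => hg₀ (congrArg Subtype.val h)⟩⟩
  have h5 := Group.IsNilpotent.center_ne_bot (closure (F : Set G))
  intro h6
  apply h5
  rw [eq_bot_iff]
  intro z hz
  rw [mem_bot]
  have h7 : (z : G) ∈ center G := by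
    apply hle
    rw [mem_centralizer_iff]
    intro f hf
    have := mem_center_iff.1 hz ⟨f, subset_closure hf⟩
    exact congrArg Subtype.val this
  rw [h6, mem_bot] at h7
  exact Subtype.ext h7

/-- the terms of the upper central series are isolated. -/
theorem ucs_isolated : ∀ (r : ℕ) (G : Type u) [Group G], TF G → LNg G →
    ∀ (x : G) (n : ℕ), 0 < n → x ^ n ∈ Subgroup.upperCentralSeries G r →
      x ∈ Subgroup.upperCentralSeries G r := by
  intro r
  induction r with
  | zero =>
    intro G _ ht _ x n hn hx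
    rw [Subgroup.upperCentralSeries_zero, mem_bot] at hx ⊢
    exact ht x n hn hx
  | succ r ih =>
    intro G _ ht hln x n hn hx
    have h1 := Subgroup.comap_upperCentralSeries_quotient_center (G := G) r
    rw [Nat.succ_eq_add_one] at h1
    rw [← h1, mem_comap] at hx ⊢
    rw [map_pow] at hx
    exact ih (G ⧸ center G) (hln.rc ht).tf_quot
      (hln.of_surjective (QuotientGroup.mk' (center G)) (QuotientGroup.mk'_surjective _)) _ n hn hx

theorem commute_aux {Q : Type*} [Group Q] {A M Z V U : Q} (hV : A * Z * A⁻¹ * Z⁻¹ = V)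
    (hU : M * Z * M⁻¹ * Z⁻¹ = U) (h1 : ∀ y : Q, (∃ a b c d : ℤ, y = A ^ a * U ^ b * M ^ c * A ^ d) →
      Commute V y) (h3 : Commute U (M * A⁻¹ * M⁻¹)) : Commute (A * M * A⁻¹ * M⁻¹) Z := by
  have c1 : Z * A * Z⁻¹ = V⁻¹ * A := by rw [← hV]; group
  have c2 : Z * M * Z⁻¹ = U⁻¹ * M := by rw [← hU]; group
  have hc : Commute V (A * U⁻¹ * M * A⁻¹) := h1 _ ⟨1, -1, 1, -1, by simp⟩
  have e1 : Z * (A * M * A⁻¹ * M⁻¹) * Z⁻¹ = A * M * A⁻¹ * M⁻¹ := by
    calc Z * (A * M * A⁻¹ * M⁻¹) * Z⁻¹
        = (Z * A * Z⁻¹) * (Z * M * Z⁻¹) * (Z * A * Z⁻¹)⁻¹ * (Z * M * Z⁻¹)⁻¹ := by group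
      _ = (V⁻¹ * A) * (U⁻¹ * M) * (V⁻¹ * A)⁻¹ * (U⁻¹ * M)⁻¹ := by rw [c1, c2]
      _ = V⁻¹ * ((A * U⁻¹ * M * A⁻¹) * V) * (M⁻¹ * U) := by group
      _ = V⁻¹ * (V * (A * U⁻¹ * M * A⁻¹)) * (M⁻¹ * U) := by rw [hc.eq]
      _ = A * U⁻¹ * (M * A⁻¹ * M⁻¹ * U) := by group
      _ = A * U⁻¹ * (U * (M * A⁻¹ * M⁻¹)) := by rw [h3.eq]
      _ = A * M * A⁻¹ * M⁻¹ := by group
  have e2 : Z * (A * M * A⁻¹ * M⁻¹) = (A * M * A⁻¹ * M⁻¹) * Z := by
    calc Z * (A * M * A⁻¹ * M⁻¹) = (Z * (A * M * A⁻¹ * M⁻¹) * Z⁻¹) * Z := by group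
      _ = _ := by rw [e1]
  exact e2.symm

/-- `[γ_(i+1), Z_(i+1+j)] ≤ Z_j`. -/
theorem lcs_ucs (G : Type u) [Group G] (i : ℕ) : ∀ j : ℕ,
    ∀ g ∈ (⊤ : Subgroup G).lowerCentralSeries i,
    ∀ z ∈ Subgroup.upperCentralSeries G (i + 1 + j),
    ⁅g, z⁆ ∈ Subgroup.upperCentralSeries G j := by
  induction i with
  | zero =>
    intro j g _ z hz
    rw [show 0 + 1 + j = j + 1 by ring, Subgroup.mem_upperCentralSeries_succ_iff] at hz
    have := hz g
    rw [← commutatorElement_inv]
    exact inv_mem this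
  | succ i ih =>
    intro j g hg z hz
    -- work in the quotient by `Z_j`
    let q := QuotientGroup.mk' (Subgroup.upperCentralSeries G j)
    -- elements of `γ_(i+1)` commute with elements of `Z_(i+1+j)` modulo `Z_j`
    have hA : ∀ a ∈ (⊤ : Subgroup G).lowerCentralSeries i,
        ∀ w ∈ Subgroup.upperCentralSeries G (i + 1 + j), Commute (q a) (q w) := by
      intro a ha w hw
      have h1 := ih j a ha w hw
      have h2 : q ⁅a, w⁆ = 1 := (QuotientGroup.eq_one_iff _).2 h1
      rw [map_commutatorElement, commutatorElement_eq_one_iff_commute] at h2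
      exact h2
    -- `[γ_(i+1), Z_(i+2+j)]` is central modulo `Z_j`
    have hB : ∀ a ∈ (⊤ : Subgroup G).lowerCentralSeries i,
        ∀ w ∈ Subgroup.upperCentralSeries G (i + 1 + 1 + j), ∀ y, Commute (q ⁅a, w⁆) (q y) := by
      intro a ha w hw y
      have h1 := ih (j + 1) a ha w (by
        rw [show i + 1 + (j + 1) = i + 1 + 1 + j by ring]; exact hw)
      have h2 : q ⁅⁅a, w⁆, y⁆ = 1 := (QuotientGroup.eq_one_iff _).2 (h1 y)
      rw [map_commutatorElement, commutatorElement_eq_one_iff_commute] at h2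
      exact h2
    -- `[m, z]` lies in `Z_(i+1+j)`
    have hC : ∀ m : G, ⁅m, z⁆ ∈ Subgroup.upperCentralSeries G (i + 1 + j) := by
      intro m
      have hz' := hz
      rw [show i + 1 + 1 + j = (i + 1 + j) + 1 by ring,
        Subgroup.mem_upperCentralSeries_succ_iff] at hz'
      rw [← commutatorElement_inv]
      exact inv_mem (hz' m)
    -- it suffices to show that `z` commutes with the generators
    have key : (⊤ : Subgroup G).lowerCentralSeries (i + 1) ≤
        (centralizer {q z}).comap q := by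
      rw [Subgroup.lowerCentralSeries_succ]
      rw [commutator_le]
      intro a ha m _
      rw [mem_comap, mem_centralizer_singleton_iff, map_commutatorElement,
        commutatorElement_def]
      have hq := commute_aux (A := q a) (M := q m) (Z := q z) (V := q ⁅a, z⁆) (U := q ⁅m, z⁆)
        (by rw [map_commutatorElement, commutatorElement_def])
        (by rw [map_commutatorElement, commutatorElement_def])
        (by
          rintro y ⟨k1, k2, k3, k4, rfl⟩
          obtain ⟨y', hy'⟩ := QuotientGroup.mk'_surjective (Subgroup.upperCentralSeries G j)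
            (q a ^ k1 * q ⁅m, z⁆ ^ k2 * q m ^ k3 * q a ^ k4)
          rw [← hy']
          exact hB a ha z hz y')
        (by
          have hn : m * a⁻¹ * m⁻¹ ∈ (⊤ : Subgroup G).lowerCentralSeries i :=
            Subgroup.Normal.conj_mem inferInstance _ (inv_mem ha) m
          have := hA _ hn _ (hC m)
          rw [map_mul, map_mul, map_inv, map_inv] at this
          exact this.symm)
      exact hq.eq
    have h1 := key hg
    rw [mem_comap, mem_centralizer_singleton_iff] at h1
    apply (QuotientGroup.eq_one_iff _).1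
    have h2 : q ⁅g, z⁆ = 1 := by
      rw [map_commutatorElement, commutatorElement_eq_one_iff_commute]
      exact h1
    exact h2

end Pool.Agent.Helper98.Engel
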