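import Mathlib
import Pool.Agent.Helper98.Engel.Malcev2

set_option autoImplicit false

namespace Pool.Agent.Helper98.Engel

open Subgroup
open scoped commutatorElement

universe u

variable {G : Type u} [Group G]

/-- adding a commuting element keeps a subgroup abelian. -/
theorem sup_zpowers_comm {A : Subgroup G} (hA : ∀ a ∈ A, ∀ b ∈ A, a * b = b * a) {x : G}
    (hx : ∀ a ∈ A, x * a = a * x) :
    ∀ a ∈ A ⊔ zpowers x, ∀ b ∈ A ⊔ zpowers x, a * b = b * a := by
  have hxc : x ∈ centralizer (A : Set G) := by
    rw [mem_centralizer_iff]; intro a ha; exact (hx a ha).symm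
  have hA1 : A ≤ centralizer (A : Set G) := by
    intro a ha; rw [mem_centralizer_iff]; intro b hb; exact hA b hb a ha
  have h2 : A ⊔ zpowers x ≤ centralizer (A : Set G) :=
    sup_le hA1 (by rw [zpowers_le]; exact hxc)
  have h3 : A ⊔ zpowers x ≤ centralizer (zpowers x : Set G) := by
    refine sup_le ?_ ?_
    · intro a ha
      rw [mem_centralizer_iff]
      rintro _ ⟨k, rfl⟩
      have : Commute x a := hx a ha
      exact (this.zpow_left k).eq
    · rw [zpowers_le, mem_centralizer_iff]
      rintro _ ⟨k, rfl⟩
      exact ((Commute.refl x).zpow_left k).eq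
  intro a ha b hb
  have h4 : A ⊔ zpowers x ≤ centralizer ((A ⊔ zpowers x : Subgroup G) : Set G) := by
    rw [le_centralizer_iff]
    refine sup_le ?_ ?_
    · rw [le_centralizer_iff]; exact h2
    · rw [le_centralizer_iff]; exact h3
  exact (mem_centralizer_iff.1 (h4 hb) a ha)

/-- the upper central series becomes stationary. -/
theorem ucs_stable (ht : TF G) (hln : LNg G) (hab : AbRF G) :
    ∃ n : ℕ, ∀ (m : ℕ) (x : G), x ∈ Subgroup.upperCentralSeries G m →
      x ∈ Subgroup.upperCentralSeries G n := by
  have hmono := Subgroup.upperCentralSeries_mono G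
  let 𝒜 : Set (Subgroup G) := {A | A.Normal ∧ (∀ a ∈ A, ∀ b ∈ A, a * b = b * a) ∧
    ∀ a ∈ A, ∃ n, a ∈ Subgroup.upperCentralSeries G n}
  obtain ⟨A, -, hmax⟩ := zorn_le_nonempty₀ 𝒜 (by
    intro c hc hchain y hy
    refine ⟨sSup c, ⟨?_, ?_, ?_⟩, fun z hz => le_sSup hz⟩
    · constructor
      intro a ha g
      rw [mem_sSup_of_directedOn ⟨y, hy⟩ hchain.directedOn] at ha ⊢
      obtain ⟨X, hX, haX⟩ := ha
      exact ⟨X, hX, (hc hX).1.conj_mem a haX g⟩
    · intro a ha b hb
      rw [mem_sSup_of_directedOn ⟨y, hy⟩ hchain.directedOn] at ha hb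
      obtain ⟨X, hX, haX⟩ := ha
      obtain ⟨Y, hY, hbY⟩ := hb
      rcases hchain.total hX hY with h | h
      · exact (hc hY).2.1 a (h haX) b hbY
      · exact (hc hX).2.1 a haX b (h hbY)
    · intro a ha
      rw [mem_sSup_of_directedOn ⟨y, hy⟩ hchain.directedOn] at ha
      obtain ⟨X, hX, haX⟩ := ha
      exact (hc hX).2.2 a haX) ⊥ ⟨inferInstance, by
        intro a ha b hb
        rw [mem_bot] at ha hb
        rw [ha, hb], by
        intro a ha
        exact ⟨0, ha⟩⟩
  obtain ⟨hAn, hAc, hAU⟩ := hmax.prop
  obtain ⟨ρ, hρ1, hρ2⟩ := hab A hAc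
  -- `A` lies in one term of the series
  obtain ⟨r, hr⟩ : ∃ r, ∀ a ∈ A, a ∈ Subgroup.upperCentralSeries G r := by
    let Q : Set ℕ := {k | ∃ n, ρ (A ⊓ Subgroup.upperCentralSeries G n) = k}
    have hQ : Q.Nonempty := ⟨_, 0, rfl⟩
    have hb : BddAbove Q := by
      refine ⟨ρ A, ?_⟩
      rintro k ⟨n, rfl⟩
      exact hρ1 inf_le_left
    obtain ⟨r, hr⟩ := Nat.sSup_mem hQ hb
    refine ⟨r, ?_⟩
    intro a ha
    obtain ⟨n, hn⟩ := hAU a ha
    have h1 : A ⊓ Subgroup.upperCentralSeries G r ≤
        A ⊓ Subgroup.upperCentralSeries G (max n r) :=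
      inf_le_inf_left _ (hmono (le_max_right _ _))
    have h2 : ρ (A ⊓ Subgroup.upperCentralSeries G (max n r)) ≤
        ρ (A ⊓ Subgroup.upperCentralSeries G r) := by
      rw [hr]; exact le_csSup hb ⟨_, rfl⟩
    obtain ⟨k, hk, hk2⟩ := hρ2 _ _ h1 inf_le_left (le_antisymm (hρ1 h1) h2) a
      (mem_inf.2 ⟨ha, hmono (le_max_left _ _) hn⟩)
    exact ucs_isolated r G ht hln a k hk (mem_inf.1 hk2).2
  -- `A` contains its centraliser in the union
  have hCA : ∀ (i : ℕ) (x : G), x ∈ Subgroup.upperCentralSeries G i →
      (∀ a ∈ A, x * a = a * x) → x ∈ A := by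
    intro i
    induction i with
    | zero =>
      intro x hx _
      rw [Subgroup.upperCentralSeries_zero, mem_bot] at hx
      rw [hx]; exact A.one_mem
    | succ i ih =>
      intro x hx hxA
      have h1 : ∀ g : G, ⁅x, g⁆ ∈ A := by
        intro g
        apply ih _ (hx g)
        intro a ha
        have c1 : Commute x a := hxA a ha
        have c2 : Commute (g * x⁻¹ * g⁻¹) a := by
          have h2 := hxA (g⁻¹ * a * g) (by
            have := hAn.conj_mem a ha g⁻¹
            simpa using this)
          have h3 : Commute x (g⁻¹ * a * g) := h2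
          have h4 := (h3.inv_left).eq
          change g * x⁻¹ * g⁻¹ * a = a * (g * x⁻¹ * g⁻¹)
          calc g * x⁻¹ * g⁻¹ * a = g * (x⁻¹ * (g⁻¹ * a * g)) * g⁻¹ := by group
            _ = g * (g⁻¹ * a * g * x⁻¹) * g⁻¹ := by rw [h4]
            _ = a * (g * x⁻¹ * g⁻¹) := by group
        have h5 : ⁅x, g⁆ = x * (g * x⁻¹ * g⁻¹) := by rw [commutatorElement_def]; group
        rw [h5]
        exact (c1.mul_left c2).eq
      have h2 : A ⊔ zpowers x ∈ 𝒜 := by
        refine ⟨⟨?_⟩, sup_zpowers_comm hAc hxA, ?_⟩
        · intro y hy g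
          have h3 : A ⊔ zpowers x ≤ (A ⊔ zpowers x).comap (MulAut.conj g).toMonoidHom := by
            refine sup_le ?_ ?_
            · intro a ha
              rw [mem_comap]
              exact mem_sup_left (hAn.conj_mem a ha g)
            · rw [zpowers_le, mem_comap]
              have h4 : (MulAut.conj g).toMonoidHom x = ⁅x, g⁆⁻¹ * x := by
                change g * x * g⁻¹ = _
                rw [commutatorElement_def]; group
              rw [h4]
              exact mul_mem (mem_sup_left (inv_mem (h1 g))) (mem_sup_right (mem_zpowers x))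
          exact h3 hy
        · intro a ha
          refine ⟨max r (i + 1), ?_⟩
          have h3 : A ⊔ zpowers x ≤ Subgroup.upperCentralSeries G (max r (i + 1)) := by
            refine sup_le ?_ ?_
            · intro a ha
              exact hmono (le_max_left _ _) (hr a ha)
            · rw [zpowers_le]
              exact hmono (le_max_right _ _) hx
          exact h3 ha
      exact (hmax.le_of_ge h2 le_sup_left) (mem_sup_right (mem_zpowers x))
  -- descending along the lower central series
  have key : ∀ d, d ≤ r → ∀ x : G, (∃ n, x ∈ Subgroup.upperCentralSeries G n) →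
      x ∈ (⊤ : Subgroup G).lowerCentralSeries (r - d) →
      x ∈ Subgroup.upperCentralSeries G (r + d) := by
    intro d
    induction d with
    | zero =>
      intro _ x hxU hx
      obtain ⟨n, hn⟩ := hxU
      apply hr
      apply hCA n x hn
      intro a ha
      have h1 := lcs_ucs G r 0 x hx a (hmono (by omega) (hr a ha))
      rw [Subgroup.upperCentralSeries_zero, mem_bot, commutatorElement_eq_one_iff_commute] at h1
      exact h1
    | succ d ih =>
      intro hd x hxU hx
      rw [← add_assoc, Subgroup.mem_upperCentralSeries_succ_iff]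
      intro g
      apply ih (by omega)
      · obtain ⟨n, hn⟩ := hxU
        refine ⟨n, ?_⟩
        have := Subgroup.Normal.conj_mem (inferInstance :
          (Subgroup.upperCentralSeries G n).Normal) _ (inv_mem hn) g
        rw [commutatorElement_def]
        have h2 := mul_mem hn this
        rw [show x * g * x⁻¹ * g⁻¹ = x * (g * x⁻¹ * g⁻¹) by group]
        exact h2
      · have h3 := (Subgroup.lowerCentralSeries_isDescendingCentralSeries (G := G)).2 x
          (r - (d + 1)) hx g
        rw [show r - (d + 1) + 1 = r - d by omega] at h3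
        exact h3
  refine ⟨r + r, ?_⟩
  intro m x hx
  apply key r le_rfl x ⟨m, hx⟩
  rw [Nat.sub_self]
  exact mem_top _

theorem top_of_stable : ∀ (n : ℕ) (G : Type u) [Group G], TF G → LNg G → AbRF G →
    Subgroup.upperCentralSeries G (n + 1) ≤ Subgroup.upperCentralSeries G n →
    Subgroup.upperCentralSeries G n = ⊤ := by
  intro n
  induction n with
  | zero =>
    intro G _ ht hln hab h
    rw [zero_add, Subgroup.upperCentralSeries_one, Subgroup.upperCentralSeries_zero] at h
    rw [Subgroup.upperCentralSeries_zero]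
    rcases subsingleton_or_nontrivial G with h1 | h1
    · exact Subsingleton.elim _ _
    · exact absurd (le_bot_iff.1 h) (center_ne_bot_of_ln ht hln hab)
  | succ n ih =>
    intro G _ ht hln hab h
    have hrc := hln.rc ht
    have h1 := Subgroup.comap_upperCentralSeries_quotient_center (G := G) n
    have h2 := Subgroup.comap_upperCentralSeries_quotient_center (G := G) (n + 1)
    rw [Nat.succ_eq_add_one] at h1 h2
    have h3 := ih (G ⧸ center G) hrc.tf_quot
      (hln.of_surjective (QuotientGroup.mk' (center G)) (QuotientGroup.mk'_surjective _))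
      (hab.quot hrc) (by
        rw [← h1, ← h2] at h
        exact (comap_le_comap_of_surjective (QuotientGroup.mk'_surjective _)).1 h)
    rw [← h1, h3, comap_top]

theorem rf_top : ∀ (n : ℕ) (G : Type u) [Group G], TF G → LNg G → AbRF G →
    Subgroup.upperCentralSeries G n = ⊤ → RF (⊤ : Subgroup G) := by
  intro n
  induction n with
  | zero =>
    intro G _ _ _ _ h
    rw [Subgroup.upperCentralSeries_zero] at h
    refine ⟨fun _ => 0, fun _ _ _ => le_rfl, ?_⟩
    intro X Y _ _ _ y _
    refine ⟨1, one_pos, ?_⟩
    have : y ∈ (⊥ : Subgroup G) := by rw [h]; exact mem_top _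
    rw [mem_bot] at this
    rw [this, one_pow]; exact X.one_mem
  | succ n ih =>
    intro G _ ht hln hab h
    have hrc := hln.rc ht
    have h1 := Subgroup.comap_upperCentralSeries_quotient_center (G := G) n
    rw [Nat.succ_eq_add_one, h] at h1
    have h2 : Subgroup.upperCentralSeries (G ⧸ center G) n = ⊤ := by
      apply comap_injective (QuotientGroup.mk'_surjective (center G))
      rw [h1, comap_top]
    have h3 := ih (G ⧸ center G) hrc.tf_quot
      (hln.of_surjective (QuotientGroup.mk' (center G)) (QuotientGroup.mk'_surjective _))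
      (hab.quot hrc) h2
    apply RF.ext (QuotientGroup.mk' (center G))
    · exact h3.mono le_top
    · rw [QuotientGroup.ker_mk']
      apply (hab (center G) (fun a ha b _ => (mem_center_iff.1 ha b).symm)).mono inf_le_right
    · intro u hu x _
      rw [QuotientGroup.ker_mk'] at hu
      exact (mem_center_iff.1 (mem_inf.1 hu).2 x).symm

/-- **Malcev**: a torsion-free locally nilpotent group in which every abelian subgroup has finite
rank is nilpotent and has a rank function. -/
theorem malcev (ht : TF G) (hln : LNg G) (hab : AbRF G) :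
    Group.IsNilpotent G ∧ RF (⊤ : Subgroup G) := by
  obtain ⟨n, hn⟩ := ucs_stable ht hln hab
  have h1 := top_of_stable n G ht hln hab (fun x hx => hn _ x hx)
  exact ⟨⟨n, h1⟩, rf_top n G ht hln hab h1⟩

/-- locally nilpotent subgroup. -/
def LN (M : Subgroup G) : Prop :=
  ∀ S : Finset G, (S : Set G) ⊆ M → Group.IsNilpotent (closure (S : Set G))

theorem TF.subgroup (ht : TF G) (M : Subgroup G) : TF M := by
  intro g n hn h
  have := ht g n hn (by rw [← coe_pow, h, coe_one])
  exact Subtype.ext this

theorem AbRF.subgroup (hab : AbRF G) (M : Subgroup G) : AbRF M := by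
  intro A hA
  apply RF.of_injOn M.subtype (B := A.map M.subtype)
  · apply hab
    rintro _ ⟨a, ha, rfl⟩ _ ⟨b, hb, rfl⟩
    rw [← map_mul, hA a ha b hb, map_mul]
  · intro a ha
    exact ⟨a, ha, rfl⟩
  · intro a _ ha2
    exact Subtype.ext (by simpa using ha2)

theorem isNilpotent_of_le {A B : Subgroup G} (h : A ≤ B) (hB : Group.IsNilpotent B) :
    Group.IsNilpotent A := by
  have h1 : Group.IsNilpotent (A.subgroupOf B) := inferInstance
  exact (Group.isNilpotent_congr (subgroupOfEquivOfLe h)).1 h1

theorem LN.of_isNilpotent {M : Subgroup G} (h : Group.IsNilpotent M) : LN M := by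
  intro S hS
  exact isNilpotent_of_le (by rw [closure_le]; exact hS) h

theorem LN.lng {M : Subgroup G} (h : LN M) : LNg M := by
  classical
  intro S
  have h1 := h (S.image M.subtype) (by
    rw [Finset.coe_image]
    rintro _ ⟨x, _, rfl⟩
    exact x.2)
  have h2 : closure ((S.image M.subtype : Finset G) : Set G) =
      (closure (S : Set M)).map M.subtype := by
    rw [MonoidHom.map_closure, Finset.coe_image]
  rw [h2] at h1
  exact (Group.isNilpotent_congr
    ((closure (S : Set M)).equivMapOfInjective M.subtype M.subtype_injective)).2 h1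

theorem malcev_sub (ht : TF G) (hab : AbRF G) {M : Subgroup G} (hM : LN M) :
    Group.IsNilpotent M ∧ RF M := by
  obtain ⟨h1, h2⟩ := malcev (ht.subgroup M) hM.lng (hab.subgroup M)
  refine ⟨h1, ?_⟩
  have h3 := h2.map M.subtype
  rw [← MonoidHom.range_eq_map, range_subtype] at h3
  exact h3

end Pool.Agent.Helper98.Engel
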