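import Mathlib
import Pool.Agent.Helper98.Engel.Malcev3

set_option autoImplicit false

namespace Pool.Agent.Helper98.Engel

open Subgroup
open scoped commutatorElement

universe u

/-- the set of elements commuting with `y` modulo the centre. -/
def cmod {E : Type u} [Group E] (y : E) : Subgroup E :=
  (centralizer {QuotientGroup.mk' (center E) y}).comap (QuotientGroup.mk' (center E))

theorem mem_cmod {E : Type u} [Group E] {y x : E} :
    x ∈ cmod y ↔ x⁻¹ * y⁻¹ * x * y ∈ center E := by
  rw [cmod, mem_comap, mem_centralizer_singleton_iff, ← QuotientGroup.eq_one_iff]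
  change _ ↔ QuotientGroup.mk' (center E) (x⁻¹ * y⁻¹ * x * y) = 1
  rw [map_mul, map_mul, map_mul, map_inv, map_inv]
  set a := QuotientGroup.mk' (center E) x
  set b := QuotientGroup.mk' (center E) y
  constructor
  · intro h
    rw [mul_assoc, h]; group
  · intro h
    calc a * b = b * a * (a⁻¹ * b⁻¹ * a * b) := by group
      _ = b * a := by rw [h, mul_one]

theorem zeta_mul {E : Type u} [Group E] {y a b : E} (ha : a⁻¹ * y⁻¹ * a * y ∈ center E) :
    (a * b)⁻¹ * y⁻¹ * (a * b) * y = (a⁻¹ * y⁻¹ * a * y) * (b⁻¹ * y⁻¹ * b * y) := by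
  have h := mem_center_iff.1 ha b⁻¹
  calc (a * b)⁻¹ * y⁻¹ * (a * b) * y
      = (b⁻¹ * (a⁻¹ * y⁻¹ * a * y)) * (y⁻¹ * b * y) := by group
    _ = ((a⁻¹ * y⁻¹ * a * y) * b⁻¹) * (y⁻¹ * b * y) := by rw [h]
    _ = _ := by group

/-- **One step.** -/
theorem lemS {E : Type u} [Group E] {D K : Subgroup E}
    (hC : centralizer (D : Set E) ≤ center E)
    (hZ : ∀ z ∈ center E, ∀ n : ℕ, 0 < n → z ^ n = 1 → z = 1) (hK : Group.IsNilpotent K)
    (hDK : D ≤ K) (hroot : ∀ x ∈ K, ∃ n : ℕ, 0 < n ∧ x ^ n ∈ D) {y : E} (hy : D ≤ cmod y) :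
    K ≤ cmod y := by
  obtain ⟨c, hc⟩ := hK
  let Z : ℕ → Subgroup K := fun i => Subgroup.upperCentralSeries K i
  -- the commutator with `y`
  let ζ : E → E := fun e => e⁻¹ * y⁻¹ * e * y
  have hζmul : ∀ a b : E, a ∈ cmod y → ζ (a * b) = ζ a * ζ b := fun a b ha =>
    zeta_mul (mem_cmod.1 ha)
  have hζone : ζ 1 = 1 := by simp [ζ]
  have hζc : ∀ a ∈ cmod y, ∀ x, x * ζ a = ζ a * x := fun a ha x =>
    mem_center_iff.1 (mem_cmod.1 ha) x
  have hζinv : ∀ a : E, a ∈ cmod y → ζ a⁻¹ = (ζ a)⁻¹ := by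
    intro a ha
    have h1 := hζmul a a⁻¹ ha
    rw [mul_inv_cancel, hζone] at h1
    exact (inv_eq_of_mul_eq_one_right h1.symm).symm
  suffices h : ∀ (i : ℕ) (x : K), x ∈ Z i → (x : E) ∈ cmod y by
    intro x hx
    exact h c ⟨x, hx⟩ (by change _ ∈ Subgroup.upperCentralSeries K c; rw [hc]; exact mem_top _)
  intro i
  induction i with
  | zero =>
    intro x hx
    have hx1 : x = 1 := by
      have : x ∈ (⊥ : Subgroup K) := hx
      exact mem_bot.1 this
    rw [hx1]; exact (cmod y).one_mem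
  | succ i ih =>
    intro s hs
    let q := QuotientGroup.mk' (Z i)
    let DK : Subgroup K := D.subgroupOf K
    let L : Subgroup K := (DK.map q).comap q
    -- `L` consists of elements commuting with `y` modulo the centre
    have hL : ∀ e ∈ L, (e : E) ∈ cmod y := by
      intro e he
      obtain ⟨d, hd, hde⟩ := he
      have h1 : d⁻¹ * e ∈ Z i := by
        apply (QuotientGroup.eq_one_iff (N := Z i) _).1
        change q (d⁻¹ * e) = 1
        rw [map_mul, map_inv, hde]; simp
      have h2 : (e : E) = d * ((d⁻¹ * e : K) : E) := by simp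
      rw [h2]
      exact mul_mem (hy hd) (ih _ h1)
    have hDL : ∀ d ∈ DK, d ∈ L := fun d hd => ⟨d, hd, rfl⟩
    -- `s` is central modulo `Z i`
    have hsq : ∀ e : K, q (s⁻¹ * e * s) = q e := by
      intro e
      have h1 : q ⁅s, e⁆ = 1 := (QuotientGroup.eq_one_iff (N := Z i) _).2 (hs e)
      rw [map_commutatorElement, commutatorElement_eq_one_iff_commute] at h1
      rw [map_mul, map_mul, map_inv, mul_assoc, ← h1.eq]; group
    have hsq' : ∀ (j : ℕ) (e : K), q ((s ^ j)⁻¹ * e * s ^ j) = q e := by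
      intro j
      induction j with
      | zero => intro e; simp
      | succ j ihj =>
        intro e
        rw [show (s ^ (j + 1))⁻¹ * e * s ^ (j + 1) = s⁻¹ * ((s ^ j)⁻¹ * e * s ^ j) * s by
          rw [pow_succ]; group, hsq, ihj]
    have hLs : ∀ (j : ℕ) (e : K), e ∈ L → (s ^ j)⁻¹ * e * s ^ j ∈ L := by
      intro j e he
      rw [mem_comap, hsq']; exact he
    -- a power of `s` is in `D`
    obtain ⟨n, hn, hsn⟩ := hroot s s.2
    -- main claim
    have claim : ∀ (k : ℕ) (e : K), e ∈ L → eng s k e = 1 →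
        ζ ((s⁻¹ * e * s : K) : E) = ζ (e : E) := by
      intro k
      induction k with
      | zero =>
        intro e _ h
        rw [eng_zero] at h
        rw [h]; simp
      | succ k ihk =>
        intro e he h
        rw [eng_succ'] at h
        set e₁ := e⁻¹ * s⁻¹ * e * s with he₁
        have he₁L : e₁ ∈ L := by
          have h1 := hLs 1 e he
          rw [pow_one] at h1
          have h2 := L.mul_mem (L.inv_mem he) h1
          rw [he₁, show e⁻¹ * s⁻¹ * e * s = e⁻¹ * (s⁻¹ * e * s) by group]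
          exact h2
        have hb : ∀ j : ℕ, ζ (((s ^ j)⁻¹ * e₁ * s ^ j : K) : E) = ζ (e₁ : E) := by
          intro j
          induction j with
          | zero => simp
          | succ j ihj =>
            have h1 := ihk ((s ^ j)⁻¹ * e₁ * s ^ j) (hLs j _ he₁L) (by
              have h2 := conj_eng (s ^ j) s e₁ k
              have h3 : (s ^ j)⁻¹ * s * s ^ j = s := by
                have : Commute s (s ^ j) := (Commute.refl s).pow_right j
                rw [mul_assoc, this.eq]; group
              rw [h3, h] at h2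
              rw [← h2]; group)
            rw [show (s ^ (j + 1))⁻¹ * e₁ * s ^ (j + 1) = s⁻¹ * ((s ^ j)⁻¹ * e₁ * s ^ j) * s by
              rw [pow_succ]; group, h1, ihj]
        have hp : ∀ j : ℕ, ζ (((s ^ j)⁻¹ * e * s ^ j : K) : E) = ζ (e : E) * ζ (e₁ : E) ^ j := by
          intro j
          induction j with
          | zero => simp
          | succ j ihj =>
            have h1 : (s ^ (j + 1))⁻¹ * e * s ^ (j + 1) =
                ((s ^ j)⁻¹ * e * s ^ j) * ((s ^ j)⁻¹ * e₁ * s ^ j) := by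
              rw [he₁, pow_succ']
              have : Commute s (s ^ j) := (Commute.refl s).pow_right j
              have h3 : s * s ^ j = s ^ j * s := this.eq
              rw [h3]; group
            rw [h1, coe_mul, hζmul _ _ (hL _ (hLs j e he)), ihj, hb j, pow_succ, mul_assoc]
        have hfin : ζ (((s ^ n)⁻¹ * e * s ^ n : K) : E) = ζ (e : E) := by
          have hsnL : s ^ n ∈ L := hDL _ (by
            rw [mem_subgroupOf]; simpa using hsn)
          have h1 : (((s ^ n)⁻¹ * e * s ^ n : K) : E) =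
              ((s ^ n : K) : E)⁻¹ * ((e : E) * ((s ^ n : K) : E)) := by
            simp [mul_assoc]
          rw [h1, hζmul _ _ (inv_mem (hL _ hsnL)), hζmul _ _ (hL _ he), hζinv _ (hL _ hsnL)]
          have h9 := hζc _ (hL _ he) (ζ ((s ^ n : K) : E))⁻¹
          rw [← mul_assoc, h9]; group
        rw [hp n] at hfin
        have h2 : ζ (e₁ : E) ^ n = 1 := by
          have : ζ (e : E) * ζ (e₁ : E) ^ n = ζ (e : E) * 1 := by rw [hfin, mul_one]
          exact mul_left_cancel this
        have h3 : ζ (e₁ : E) = 1 := hZ _ (mem_cmod.1 (hL _ he₁L)) n hn h2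
        have h4 := hp 1
        rw [pow_one, pow_one, h3, mul_one] at h4
        exact h4
    -- conclusion: `s⁻¹ y⁻¹ s y` centralises `D`
    rw [mem_cmod]
    apply hC
    rw [mem_centralizer_iff]
    intro d hd
    have hdK : d ∈ K := hDK hd
    let d' : K := ⟨d, hdK⟩
    have hd' : d' ∈ DK := hd
    have heL : s * d' * s⁻¹ ∈ L := by
      have h1 := hsq (s * d' * s⁻¹)
      rw [mem_comap, ← h1]
      have h2 : s⁻¹ * (s * d' * s⁻¹) * s = d' := by group
      rw [h2]; exact ⟨d', hd', rfl⟩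
    have hen : ∃ k, eng s k (s * d' * s⁻¹) = 1 := by
      have hKn : Group.IsNilpotent (⊤ : Subgroup K) :=
        Group.isNilpotent_top.2 ⟨c, hc⟩
      exact eng_of_nilpotent hKn (mem_top _) (mem_top _)
    obtain ⟨k, hk⟩ := hen
    have h5 := claim k _ heL hk
    have h6 : (s⁻¹ * (s * d' * s⁻¹) * s : K) = d' := by group
    rw [h6] at h5
    have h7 : ζ (d : E) = ζ ((s : E) * d * (s : E)⁻¹) := h5
    have hz := hζc d (hy hd)
    -- unfold
    have e1 : y⁻¹ * d * y = d * ζ d := by simp only [ζ]; group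
    have e2 : y⁻¹ * ((s : E) * d * (s : E)⁻¹) * y = ((s : E) * d * (s : E)⁻¹) * ζ d := by
      rw [h7]; simp only [ζ]; group
    have e3 : (y⁻¹ * s * y) * (d * ζ d) * (y⁻¹ * s * y)⁻¹ = ((s : E) * d * (s : E)⁻¹) * ζ d := by
      rw [← e1, ← e2]; group
    have e4 : (y⁻¹ * s * y) * d * (y⁻¹ * s * y)⁻¹ = ((s : E) * d * (s : E)⁻¹) := by
      have h8 : ∀ w z : E, (∀ x, x * z = z * x) → w * (d * z) * w⁻¹ = w * d * w⁻¹ * z := by
        intro w z hwz
        calc w * (d * z) * w⁻¹ = w * d * (z * w⁻¹) := by group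
          _ = w * d * (w⁻¹ * z) := by rw [hwz]
          _ = w * d * w⁻¹ * z := by group
      rw [h8 _ _ hz] at e3
      exact mul_right_cancel e3
    calc d * ((s : E)⁻¹ * y⁻¹ * s * y)
        = (s : E)⁻¹ * ((s : E) * d * (s : E)⁻¹) * (y⁻¹ * s * y) := by group
      _ = (s : E)⁻¹ * ((y⁻¹ * s * y) * d * (y⁻¹ * s * y)⁻¹) * (y⁻¹ * s * y) := by rw [e4]
      _ = ((s : E)⁻¹ * y⁻¹ * s * y) * d := by group

end Pool.Agent.Helper98.Engel
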