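import Mathlib
import Pool.Agent.Helper98.Engel.Join

set_option autoImplicit false

namespace Pool.Agent.Helper98.Engel

open Subgroup
open scoped commutatorElement

universe u

/-- **(J)**, absolute form. -/
theorem lemJ : ∀ (c : ℕ) (E : Type u) [Group E] (D : Subgroup E) (𝒦 : Set (Subgroup E))
    (W : ℕ → Subgroup E), W 0 = ⊥ → W c = D →
    (∀ i, ∀ x ∈ W (i + 1), x ∈ D ∧ ∀ d ∈ D, x⁻¹ * d⁻¹ * x * d ∈ W i) →
    (∀ K ∈ 𝒦, D ≤ K ∧ Group.IsNilpotent K ∧ ∀ x ∈ K, ∃ n : ℕ, 0 < n ∧ x ^ n ∈ D) →
    sSup 𝒦 = ⊤ → centralizer (D : Set E) ≤ center E →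
    (∀ z ∈ center E, ∀ n : ℕ, 0 < n → z ^ n = 1 → z = 1) →
    Subgroup.upperCentralSeries E c = ⊤ := by
  intro c
  induction c with
  | zero =>
    intro E _ D 𝒦 W hW0 hWc _ h𝒦 htop hC hZ
    rw [Subgroup.upperCentralSeries_zero]
    have hD : D = ⊥ := by rw [← hWc, hW0]
    have hcen : ∀ x : E, x ∈ center E := by
      intro x
      apply hC
      rw [mem_centralizer_iff]
      intro d hd
      have : d = 1 := by
        have h1 : d ∈ D := hd
        rw [hD, mem_bot] at h1; exact h1
      rw [this]; simp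
    rw [eq_comm, eq_bot_iff, ← htop]
    apply sSup_le
    intro K hK x hx
    obtain ⟨-, -, h3⟩ := h𝒦 K hK
    obtain ⟨n, hn, hn2⟩ := h3 x hx
    rw [hD, mem_bot] at hn2
    rw [mem_bot]
    exact hZ x (hcen x) n hn hn2
  | succ c ih =>
    intro E _ D 𝒦 W hW0 hWc hW h𝒦 htop hC hZ
    let q := QuotientGroup.mk' (center E)
    have hq : ∀ x, q x = 1 ↔ x ∈ center E := fun x => QuotientGroup.eq_one_iff x
    have hqs : Function.Surjective q := QuotientGroup.mk'_surjective _
    have h1 := ih (E ⧸ center E) (D.map q) ((fun K => K.map q) '' 𝒦) (fun i => (W (i + 1)).map q)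
      (by
        simp only [zero_add]
        rw [eq_bot_iff]
        rintro _ ⟨x, hx, rfl⟩
        rw [mem_bot, hq]
        apply hC
        rw [mem_centralizer_iff]
        intro d hd
        obtain ⟨_, h3⟩ := hW 0 x hx
        have h4 := h3 d hd
        rw [hW0, mem_bot] at h4
        calc d * x = x * d * (x⁻¹ * d⁻¹ * x * d)⁻¹ := by group
          _ = x * d := by rw [h4]; simp)
      (by rw [hWc])
      (by
        rintro i _ ⟨x, hx, rfl⟩
        obtain ⟨h2, h3⟩ := hW (i + 1) x hx
        refine ⟨⟨x, h2, rfl⟩, ?_⟩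
        rintro _ ⟨d, hd, rfl⟩
        exact ⟨x⁻¹ * d⁻¹ * x * d, h3 d hd, by simp⟩)
      (by
        rintro _ ⟨K, hK, rfl⟩
        obtain ⟨h2, h3, h4⟩ := h𝒦 K hK
        refine ⟨map_mono h2, ?_, ?_⟩
        · exact Group.nilpotent_of_surjective (q.subgroupMap K) (q.subgroupMap_surjective K)
        · rintro _ ⟨x, hx, rfl⟩
          obtain ⟨n, hn, hn2⟩ := h4 x hx
          exact ⟨n, hn, x ^ n, hn2, by simp⟩)
      (by
        rw [eq_top_iff, ← map_top_of_surjective q hqs, ← htop, map_le_iff_le_comap]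
        apply sSup_le
        intro K hK
        rw [← map_le_iff_le_comap]
        exact le_sSup ⟨K, hK, rfl⟩)
      (by
        intro y hy
        obtain ⟨y, rfl⟩ := hqs y
        have h2 : D ≤ cmod y := by
          intro d hd
          rw [cmod, mem_comap, mem_centralizer_singleton_iff]
          exact mem_centralizer_iff.1 hy (q d) ⟨d, hd, rfl⟩
        have h3 : ∀ K ∈ 𝒦, K ≤ cmod y := by
          intro K hK
          obtain ⟨h5, h6, h7⟩ := h𝒦 K hK
          exact lemS hC hZ h6 h5 h7 h2
        have h4 : (⊤ : Subgroup E) ≤ cmod y := by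
          rw [← htop]; exact sSup_le h3
        rw [mem_center_iff]
        intro x
        obtain ⟨x, rfl⟩ := hqs x
        have h5 := h4 (mem_top x)
        rw [cmod, mem_comap, mem_centralizer_singleton_iff] at h5
        exact h5)
      (by
        intro z hz n hn hzn
        obtain ⟨z, rfl⟩ := hqs z
        rw [hq]
        rw [← map_pow, hq] at hzn
        rw [mem_center_iff]
        intro g
        -- `g⁻¹ z g = z c` with `c` central
        set c' := z⁻¹ * g⁻¹ * z * g with hc'
        have h2 : c' ∈ center E := by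
          rw [← hq]
          have h3 := mem_center_iff.1 hz (q g)
          rw [hc', map_mul, map_mul, map_mul, map_inv, map_inv, mul_assoc, ← h3]
          group
        have h4 : ∀ j : ℕ, g⁻¹ * z ^ j * g = z ^ j * c' ^ j := by
          intro j
          induction j with
          | zero => simp
          | succ j ihj =>
            have h5 := mem_center_iff.1 (pow_mem h2 j) z
            calc g⁻¹ * z ^ (j + 1) * g = (g⁻¹ * z ^ j * g) * (g⁻¹ * z * g) := by
                  rw [pow_succ]; group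
              _ = z ^ j * c' ^ j * (z * c') := by rw [ihj, hc']; group
              _ = z ^ j * (c' ^ j * z) * c' := by group
              _ = z ^ j * (z * c' ^ j) * c' := by rw [h5]
              _ = z ^ (j + 1) * c' ^ (j + 1) := by rw [pow_succ, pow_succ]; group
        have h6 := h4 n
        have h7 := mem_center_iff.1 hzn g
        have h8 : g⁻¹ * z ^ n * g = z ^ n := by rw [mul_assoc, ← h7]; group
        rw [h8] at h6
        have h9 : c' ^ n = 1 := by
          have : z ^ n * c' ^ n = z ^ n * 1 := by rw [← h6, mul_one]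
          exact mul_left_cancel this
        have h10 : c' = 1 := hZ c' h2 n hn h9
        calc g * z = z * g * (z⁻¹ * g⁻¹ * z * g)⁻¹ := by group
          _ = z * g := by rw [← hc', h10]; simp)
    have h2 := Subgroup.comap_upperCentralSeries_quotient_center (G := E) c
    rw [h1, comap_top] at h2
    exact h2.symm

/-- **(J)**, relative form. -/
theorem lemJ' {G : Type u} [Group G] (ht : TF G) {D : Subgroup G} (hD : Group.IsNilpotent D)
    (𝒦 : Set (Subgroup G)) (h𝒦 : ∀ K ∈ 𝒦, D ≤ K ∧ Group.IsNilpotent K ∧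
      ∀ x ∈ K, ∃ n : ℕ, 0 < n ∧ x ^ n ∈ D) (hne : 𝒦.Nonempty)
    (hC : ∀ y ∈ sSup 𝒦, (∀ d ∈ D, y * d = d * y) → ∀ K ∈ 𝒦, ∀ x ∈ K, y * x = x * y) :
    Group.IsNilpotent (sSup 𝒦 : Subgroup G) := by
  obtain ⟨c, hc⟩ := hD
  set E := sSup 𝒦 with hE
  have hle : ∀ K ∈ 𝒦, K ≤ E := fun K hK => le_sSup hK
  obtain ⟨K₀, hK₀⟩ := hne
  have hDE : D ≤ E := (h𝒦 K₀ hK₀).1.trans (hle K₀ hK₀)
  refine ⟨c, ?_⟩
  apply lemJ c E (D.subgroupOf E) ((fun K => K.subgroupOf E) '' 𝒦)
    (fun i => ((Subgroup.upperCentralSeries D i).map D.subtype).subgroupOf E)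
  · simp only [Subgroup.upperCentralSeries_zero, Subgroup.map_bot]
    exact bot_subgroupOf E
  · simp only [hc]
    rw [← MonoidHom.range_eq_map, range_subtype]
  · rintro i x hx
    obtain ⟨w, hw, hw2⟩ := hx
    constructor
    · rw [mem_subgroupOf]
      change (D.subtype w : G) = (x : G) at hw2
      rw [← hw2]; exact w.2
    · intro d hd
      have hd' : (d : G) ∈ D := hd
      have h1 : w⁻¹ * (⟨d, hd'⟩ : D)⁻¹ * w * ⟨d, hd'⟩ ∈ Subgroup.upperCentralSeries D i := by
        have h2 := (Subgroup.upperCentralSeries_isAscendingCentralSeries D).2 _ i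
          (inv_mem hw) (⟨d, hd'⟩ : D)⁻¹
        rw [commutatorElement_def] at h2
        simpa using h2
      refine ⟨_, h1, ?_⟩
      change (D.subtype w : G) = (x : G) at hw2
      have hw3 : (w : G) = x := hw2
      simp [hw3]
  · rintro _ ⟨K, hK, rfl⟩
    obtain ⟨h1, h2, h3⟩ := h𝒦 K hK
    refine ⟨fun x hx => h1 hx, ?_, ?_⟩
    · exact (Group.isNilpotent_congr (subgroupOfEquivOfLe (hle K hK))).2 h2
    · intro x hx
      obtain ⟨n, hn, hn2⟩ := h3 x hx
      exact ⟨n, hn, by rw [mem_subgroupOf]; simpa using hn2⟩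
  · apply map_injective (E.subtype_injective)
    rw [← MonoidHom.range_eq_map, range_subtype]
    apply le_antisymm
    · rintro _ ⟨x, _, rfl⟩; exact x.2
    · conv_lhs => rw [hE]
      apply sSup_le
      intro K hK x hx
      refine ⟨⟨x, hle K hK hx⟩, ?_, rfl⟩
      have h5 : K.subgroupOf E ≤ sSup ((fun K => K.subgroupOf E) '' 𝒦) :=
        le_sSup ⟨K, hK, rfl⟩
      exact h5 hx
  · intro y hy
    have h1 : ∀ d ∈ D, (y : G) * d = d * y := by
      intro d hd
      have h2 := mem_centralizer_iff.1 hy ⟨d, hDE hd⟩ hd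
      exact (congrArg Subtype.val h2).symm
    have h2 := hC y y.2 h1
    have h3 : E ≤ centralizer {(y : G)} := by
      conv_lhs => rw [hE]
      apply sSup_le
      intro K hK x hx
      rw [mem_centralizer_singleton_iff]
      exact (h2 K hK x hx).symm
    rw [mem_center_iff]
    intro x
    have h4 := mem_centralizer_singleton_iff.1 (h3 x.2)
    exact Subtype.ext h4
  · intro z _ n hn h
    exact ht.subgroup E z n hn h

end Pool.Agent.Helper98.Engel
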