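import Mathlib
import Pool.Agent.Helper98.Engel.Malcev3

set_option autoImplicit false

namespace Pool.Agent.Helper98.Engel

open Subgroup
open scoped commutatorElement

universe u

/-- unique roots. -/
theorem root_unique {G : Type u} [Group G] (ht : TF G) (hr : RC G) {x y : G} {n : ℕ} (hn : 0 < n)
    (h : x ^ n = y ^ n) : x = y := by
  have h1 : x ^ n * y = y * x ^ n := by rw [h, ← pow_succ, ← pow_succ']
  have h2 : Commute x y := hr x y n hn h1
  have h3 : (x⁻¹ * y) ^ n = 1 := by
    rw [(h2.inv_left).mul_pow, inv_pow, h]; group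
  have h4 := ht _ n hn h3
  calc x = x * (x⁻¹ * y) := by rw [h4, mul_one]
    _ = y := by group

/-- a normal nilpotent subgroup together with an element acting as an Engel element. -/
theorem lemE_aux : ∀ (h : ℕ) (H : Type u) [Group H] (M : Subgroup H) (u : H)
    (ρ : Subgroup H → ℕ), M.Normal → Group.IsNilpotent M → TF M → Monotone ρ →
    (∀ X Y : Subgroup H, X ≤ Y → Y ≤ M → ρ X = ρ Y → ∀ y ∈ Y, ∃ n : ℕ, 0 < n ∧ y ^ n ∈ X) →
    ρ M ≤ ρ ⊥ + h → (∀ x ∈ M, ∃ k, eng u k x = 1) → M ⊔ zpowers u = ⊤ →
    Group.IsNilpotent H := by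
  intro h
  induction h with
  | zero =>
    intro H _ M u ρ _ _ htf hρ1 hρ2 hh _ htop
    have h1 : M = ⊥ := by
      rw [eq_bot_iff]
      intro x hx
      obtain ⟨n, hn, hn2⟩ := hρ2 ⊥ M bot_le le_rfl
        (le_antisymm (hρ1 bot_le) (by simpa using hh)) x hx
      rw [mem_bot] at hn2 ⊢
      have := htf ⟨x, hx⟩ n hn (Subtype.ext (by simpa using hn2))
      exact congrArg Subtype.val this
    rw [h1, bot_sup_eq] at htop
    have h2 : IsCyclic H := ⟨u, fun x => by
      have h3 : x ∈ zpowers u := by rw [htop]; exact mem_top x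
      exact h3⟩
    let _ := h2.commGroup
    have h3 : Group.IsNilpotent H := inferInstance
    exact h3
  | succ h ih =>
    intro H _ M u ρ hMn hM htf hρ1 hρ2 hh heng htop
    have hMrc : RC M := by
      intro s y n hn hc
      obtain ⟨k, hk⟩ := eng_of_nilpotent (M := (⊤ : Subgroup M)) (Group.isNilpotent_top.2 hM)
        (mem_top s) (mem_top y)
      exact comm_of_pow_comm_aux htf hn k y hk hc
    by_cases hM1 : M = ⊥
    · exact ih H M u ρ hMn hM htf hρ1 hρ2 (by rw [hM1]; omega) heng htop
    -- a non-trivial central element of `M`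
    have hMnt : Nontrivial M := (nontrivial_iff_ne_bot M).2 hM1
    have h1 := Group.IsNilpotent.center_ne_bot M
    obtain ⟨a, ha, ha1⟩ : ∃ a : M, a ∈ center M ∧ a ≠ 1 := by
      obtain ⟨a, ha⟩ := (ne_bot_iff_exists_ne_one).1 h1
      exact ⟨a, a.2, fun h => ha (Subtype.ext h)⟩
    -- iterated commutators with `u` stay in the centre of `M`
    have hcen : ∀ c ∈ M, (∀ m ∈ M, m * c = c * m) →
        (c⁻¹ * u⁻¹ * c * u ∈ M ∧ ∀ m ∈ M, m * (c⁻¹ * u⁻¹ * c * u) = (c⁻¹ * u⁻¹ * c * u) * m) := by
      intro c hc hcc
      have h2 : u⁻¹ * c * u ∈ M := by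
        have := hMn.conj_mem c hc u⁻¹
        simpa using this
      constructor
      · have := M.mul_mem (M.inv_mem hc) h2
        simpa [mul_assoc] using this
      · intro m hm
        have h3 : u * m * u⁻¹ ∈ M := hMn.conj_mem m hm u
        have h4 := hcc _ h3
        have h5 : Commute m c := hcc m hm
        have h6 : m * (u⁻¹ * c * u) = (u⁻¹ * c * u) * m := by
          calc m * (u⁻¹ * c * u) = u⁻¹ * ((u * m * u⁻¹) * c) * u := by group
            _ = u⁻¹ * (c * (u * m * u⁻¹)) * u := by rw [h4]
            _ = (u⁻¹ * c * u) * m := by group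
        have h7 : Commute m (u⁻¹ * c * u) := h6
        have h8 := (h5.inv_right.mul_right h7).eq
        simpa [mul_assoc] using h8
    have hexists : ∀ (k : ℕ) (c : H), c ∈ M → (∀ m ∈ M, m * c = c * m) → c ≠ 1 →
        eng u k c = 1 → ∃ b ∈ M, (∀ m ∈ M, m * b = b * m) ∧ b ≠ 1 ∧ u * b = b * u := by
      intro k
      induction k with
      | zero =>
        intro c _ _ hc1 hk
        exact absurd hk hc1
      | succ k ihk =>
        intro c hcM hcc hc1 hk
        by_cases hu : u * c = c * u
        · exact ⟨c, hcM, hcc, hc1, hu⟩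
        · obtain ⟨h2, h3⟩ := hcen c hcM hcc
          apply ihk _ h2 h3 _ (by rw [eng_succ'] at hk; exact hk)
          intro h4
          apply hu
          calc u * c = c * u * (c⁻¹ * u⁻¹ * c * u)⁻¹ := by group
            _ = c * u := by rw [h4]; simp
    obtain ⟨k, hk⟩ := heng a a.2
    obtain ⟨b, hbM, hbc, hb1, hub⟩ := hexists k (a : H) a.2 (by
      intro m hm
      have := mem_center_iff.1 ha ⟨m, hm⟩
      exact congrArg Subtype.val this) (by
      intro h2
      exact ha1 (Subtype.ext h2)) hk
    have hbcen : b ∈ center H := by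
      have h2 : M ⊔ zpowers u ≤ centralizer {b} := by
        refine sup_le ?_ ?_
        · intro m hm
          rw [mem_centralizer_singleton_iff]; exact hbc m hm
        · rw [zpowers_le, mem_centralizer_singleton_iff]; exact hub
      rw [mem_center_iff]
      intro g
      have h3 : g ∈ M ⊔ zpowers u := by rw [htop]; exact mem_top g
      exact mem_centralizer_singleton_iff.1 (h2 h3)
    -- elements of `M` with a central power are central
    have hiso : ∀ x ∈ M, ∀ n : ℕ, 0 < n → x ^ n ∈ center H → x ∈ center H := by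
      intro x hx n hn hxn
      have h2 : M ⊔ zpowers u ≤ centralizer {x} := by
        refine sup_le ?_ ?_
        · intro m hm
          rw [mem_centralizer_singleton_iff]
          have h3 := hMrc ⟨x, hx⟩ ⟨m, hm⟩ n hn (Subtype.ext (by
            simpa using (mem_center_iff.1 hxn m).symm))
          exact (congrArg Subtype.val h3).symm
        · rw [zpowers_le, mem_centralizer_singleton_iff]
          have h4 : u⁻¹ * x * u ∈ M := by
            have := hMn.conj_mem x hx u⁻¹
            simpa using this
          have h5 : (⟨u⁻¹ * x * u, h4⟩ : M) ^ n = ⟨x, hx⟩ ^ n := by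
            apply Subtype.ext
            have h6 : (u⁻¹ * x * u) ^ n = u⁻¹ * x ^ n * u := by
              have := conj_pow (i := n) (a := u⁻¹) (b := x)
              simpa using this
            have h7 := mem_center_iff.1 hxn u
            simp only [coe_pow]
            rw [h6, mul_assoc, ← h7]; group
          have h8 := congrArg Subtype.val (root_unique htf hMrc hn h5)
          have h9 : u⁻¹ * x * u = x := h8
          calc u * x = u * (u⁻¹ * x * u) := by rw [h9]
            _ = x * u := by group
      rw [mem_center_iff]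
      intro g
      have h3 : g ∈ M ⊔ zpowers u := by rw [htop]; exact mem_top g
      exact mem_centralizer_singleton_iff.1 (h2 h3)
    -- pass to the quotient
    apply Group.of_quotient_center_nilpotent
    let q := QuotientGroup.mk' (center H)
    have hq : ∀ x, q x = 1 ↔ x ∈ center H := fun x => QuotientGroup.eq_one_iff x
    have hqs : Function.Surjective q := QuotientGroup.mk'_surjective _
    apply ih (H ⧸ center H) (M.map q) (q u) (fun X => ρ (X.comap q ⊓ M))
    · exact hMn.map q hqs
    · exact Group.nilpotent_of_surjective (q.subgroupMap M) (q.subgroupMap_surjective M)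
    · rintro ⟨_, x, hx, rfl⟩ n hn hxn
      apply Subtype.ext
      change q x = 1
      rw [hq]
      apply hiso x hx n hn
      rw [← hq, map_pow]
      have := congrArg Subtype.val hxn
      simpa using this
    · intro X Y hXY
      exact hρ1 (inf_le_inf_right _ (comap_mono hXY))
    · intro X Y hXY hY he y hy
      obtain ⟨m, hm, rfl⟩ := hY hy
      obtain ⟨n, hn, hn2⟩ := hρ2 (X.comap q ⊓ M) (Y.comap q ⊓ M)
        (inf_le_inf_right _ (comap_mono hXY)) inf_le_right he m (mem_inf.2 ⟨hy, hm⟩)
      refine ⟨n, hn, ?_⟩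
      have := (mem_inf.1 hn2).1
      rw [mem_comap, map_pow] at this
      exact this
    · have e1 : ρ ((M.map q).comap q ⊓ M) ≤ ρ M := hρ1 inf_le_right
      have e2 : ρ (⊥ : Subgroup H) < ρ ((⊥ : Subgroup (H ⧸ center H)).comap q ⊓ M) := by
        apply lt_of_le_of_ne (hρ1 bot_le)
        intro he
        obtain ⟨n, hn, hn2⟩ := hρ2 ⊥ ((⊥ : Subgroup (H ⧸ center H)).comap q ⊓ M) bot_le
          inf_le_right he b (mem_inf.2 ⟨by rw [mem_comap, mem_bot, hq]; exact hbcen, hbM⟩)
        rw [mem_bot] at hn2
        apply hb1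
        have := htf ⟨b, hbM⟩ n hn (Subtype.ext (by simpa using hn2))
        exact congrArg Subtype.val this
      omega
    · rintro _ ⟨x, hx, rfl⟩
      obtain ⟨k, hk⟩ := heng x hx
      exact ⟨k, by rw [← map_eng, hk, map_one]⟩
    · rw [eq_top_iff, ← map_top_of_surjective q hqs, ← htop, Subgroup.map_sup]
      refine sup_le le_sup_left ?_
      rw [MonoidHom.map_zpowers]
      exact le_sup_right

/-- relative form: a left Engel element normalising a nilpotent subgroup. -/
theorem lemE {G : Type u} [Group G] (ht : TF G) {M : Subgroup G} (hM : Group.IsNilpotent M)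
    (hR : RF M) {u : G} (hu : IsLeftEngel u) (hn : u ∈ normalizer (M : Set G)) :
    Group.IsNilpotent (M ⊔ zpowers u : Subgroup G) := by
  set H := M ⊔ zpowers u with hH
  have hMH : M ≤ H := le_sup_left
  have huH : u ∈ H := mem_sup_right (mem_zpowers u)
  have hnorm : (M.subgroupOf H).Normal := by
    rw [normal_subgroupOf_iff_le_normalizer hMH]
    refine sup_le le_normalizer ?_
    rw [zpowers_le]; exact hn
  have hMn : Group.IsNilpotent (M.subgroupOf H) :=
    (Group.isNilpotent_congr (subgroupOfEquivOfLe hMH)).2 hM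
  have hR' : RF (M.subgroupOf H) := by
    apply RF.of_injOn H.subtype hR
    · intro a ha; exact ha
    · intro a _ ha; exact Subtype.ext (by simpa using ha)
  obtain ⟨ρ, hρ1, hρ2⟩ := hR'
  apply lemE_aux (ρ (M.subgroupOf H)) H (M.subgroupOf H) ⟨u, huH⟩ ρ hnorm hMn
    ((ht.subgroup H).subgroup _) hρ1 hρ2 (by omega)
  · intro x _
    obtain ⟨k, hk⟩ := hu x
    refine ⟨k, ?_⟩
    apply H.subtype_injective
    rw [map_eng, map_one]; exact hk
  · apply map_injective (H.subtype_injective)
    rw [← MonoidHom.range_eq_map, range_subtype, Subgroup.map_sup, MonoidHom.map_zpowers]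
    change (M.subgroupOf H).map H.subtype ⊔ zpowers u = H
    rw [subgroupOf_map_subtype, inf_of_le_left hMH]

end Pool.Agent.Helper98.Engel
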