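import Mathlib
import Pool.Agent.Helper98.Engel.Join2
import Pool.Agent.Helper98.Engel.Norm

set_option autoImplicit false

namespace Pool.Agent.Helper98.Engel

open Subgroup
open scoped commutatorElement

universe u

variable {G : Type u} [Group G]

/-- locally nilpotent subgroups generated by elements of `T`. -/
def NN (T : Set G) : Set (Subgroup G) := {M | LN M ∧ closure (T ∩ (M : Set G)) = M}

theorem LN.mono {A B : Subgroup G} (h : A ≤ B) (hB : LN B) : LN A :=
  fun S hS => hB S (fun _ hx => h (hS hx))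

/-- subgroups generated by subsets of `T` below a locally nilpotent one. -/
theorem closure_mem_NN {T X : Set G} {M : Subgroup G} (hX : X ⊆ T) (hXM : X ⊆ (M : Set G))
    (hM : LN M) : closure X ∈ NN T := by
  refine ⟨hM.mono (by rw [closure_le]; exact hXM), ?_⟩
  apply le_antisymm
  · rw [closure_le]; exact Set.inter_subset_right
  · exact closure_mono (fun x hx => ⟨hX hx, subset_closure hx⟩)

/-- directed unions stay in the family. -/
theorem sSup_mem_NN {T : Set G} {c : Set (Subgroup G)} (hc : c ⊆ NN T) (hne : c.Nonempty)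
    (hd : DirectedOn (· ≤ ·) c) : sSup c ∈ NN T := by
  classical
  constructor
  · intro S
    have key : (S : Set G) ⊆ ((sSup c : Subgroup G) : Set G) → ∃ K ∈ c, (S : Set G) ⊆ K := by
      induction S using Finset.induction_on with
      | empty =>
        intro _
        obtain ⟨K, hK⟩ := hne
        exact ⟨K, hK, by simp⟩
      | insert x S _ ih =>
        intro h
        rw [Finset.coe_insert, Set.insert_subset_iff] at h
        obtain ⟨K, hK, hSK⟩ := ih h.2
        have hx : x ∈ sSup c := h.1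
        rw [mem_sSup_of_directedOn hne hd] at hx
        obtain ⟨K', hK', hxK'⟩ := hx
        obtain ⟨K'', hK'', h1, h2⟩ := hd K hK K' hK'
        refine ⟨K'', hK'', ?_⟩
        rw [Finset.coe_insert, Set.insert_subset_iff]
        exact ⟨h2 hxK', fun y hy => h1 (hSK hy)⟩
    intro hS
    obtain ⟨K, hK, hSK⟩ := key hS
    exact (hc hK).1 S hSK
  · apply le_antisymm
    · rw [closure_le]; exact Set.inter_subset_right
    · apply sSup_le
      intro K hK
      have h1 := (hc hK).2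
      rw [← h1]
      exact closure_mono (fun x hx => ⟨hx.1, (le_sSup hK) hx.2⟩)

theorem exists_maximal {T : Set G} {M : Subgroup G} (hM : M ∈ NN T) :
    ∃ M' : Subgroup G, M ≤ M' ∧ Maximal (· ∈ NN T) M' := by
  apply zorn_le_nonempty₀ (NN T) _ M hM
  intro c hc hchain y hy
  exact ⟨sSup c, sSup_mem_NN hc ⟨y, hy⟩ hchain.directedOn, fun z hz => le_sSup hz⟩

/-- conjugates of members of the family. -/
theorem conj_mem_NN {T : Set G} (hc : ∀ t ∈ T, ∀ g : G, g * t * g⁻¹ ∈ T) {M : Subgroup G}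
    (hM : M ∈ NN T) (g : G) : M.map (MulAut.conj g).toMonoidHom ∈ NN T := by
  classical
  constructor
  · intro S hS
    have h1 := hM.1 (S.image (fun x => g⁻¹ * x * g)) (by
      rw [Finset.coe_image]
      rintro _ ⟨x, hx, rfl⟩
      obtain ⟨m, hm, rfl⟩ := hS hx
      have : g⁻¹ * ((MulAut.conj g).toMonoidHom m) * g = m := by
        change g⁻¹ * (g * m * g⁻¹) * g = m
        group
      simp only [this]; exact hm)
    have h2 : closure (S : Set G) =
        (closure ((S.image (fun x => g⁻¹ * x * g) : Finset G) : Set G)).map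
          (MulAut.conj g).toMonoidHom := by
      rw [MonoidHom.map_closure]
      congr 1
      ext x
      simp only [Finset.coe_image, Set.mem_image, Finset.mem_coe]
      constructor
      · intro hx
        refine ⟨g⁻¹ * x * g, ⟨x, hx, rfl⟩, ?_⟩
        change g * (g⁻¹ * x * g) * g⁻¹ = x
        group
      · rintro ⟨_, ⟨y, hy, rfl⟩, rfl⟩
        change g * (g⁻¹ * y * g) * g⁻¹ ∈ S
        have : g * (g⁻¹ * y * g) * g⁻¹ = y := by group
        rw [this]; exact hy
    rw [h2]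
    exact Group.nilpotent_of_surjective (MonoidHom.subgroupMap _ _)
      (MonoidHom.subgroupMap_surjective _ _)
  · apply le_antisymm
    · rw [closure_le]; exact Set.inter_subset_right
    · conv_lhs => rw [← hM.2]
      rw [MonoidHom.map_closure]
      apply Subgroup.closure_mono
      rintro _ ⟨x, ⟨hx, hx2⟩, rfl⟩
      exact ⟨hc x hx g, ⟨x, hx2, rfl⟩⟩

theorem conj_maximal {T : Set G} (hc : ∀ t ∈ T, ∀ g : G, g * t * g⁻¹ ∈ T) {M : Subgroup G}
    (hM : Maximal (· ∈ NN T) M) (g : G) :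
    Maximal (· ∈ NN T) (M.map (MulAut.conj g).toMonoidHom) := by
  refine ⟨conj_mem_NN hc hM.prop g, ?_⟩
  intro N hN hle
  have h1 : M ≤ N.map (MulAut.conj g⁻¹).toMonoidHom := by
    intro m hm
    refine ⟨g * m * g⁻¹, hle ⟨m, hm, rfl⟩, ?_⟩
    change g⁻¹ * (g * m * g⁻¹) * g⁻¹⁻¹ = m
    group
  have h2 := hM.le_of_ge (conj_mem_NN hc hN g⁻¹) h1
  intro x hx
  refine ⟨g⁻¹ * x * g, h2 ⟨x, hx, ?_⟩, ?_⟩
  · change g⁻¹ * x * g⁻¹⁻¹ = g⁻¹ * x * g
    group
  · change g * (g⁻¹ * x * g) * g⁻¹ = x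
    group

/-- a set of left Engel elements, closed under conjugation, in a torsion-free group with
rank functions. -/
structure Ctx (T : Set G) : Prop where
  tf : TF G
  ab : AbRF G
  lft : ∀ t ∈ T, IsLeftEngel t
  conj : ∀ t ∈ T, ∀ g : G, g * t * g⁻¹ ∈ T

variable {T : Set G}

theorem Ctx.nil (h : Ctx T) {M : Subgroup G} (hM : M ∈ NN T) : Group.IsNilpotent M :=
  (malcev_sub h.tf h.ab hM.1).1

theorem Ctx.rf (h : Ctx T) {M : Subgroup G} (hM : M ∈ NN T) : RF M :=
  (malcev_sub h.tf h.ab hM.1).2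

/-- adding an element of `T`. -/
theorem sup_mem_NN {D M : Subgroup G} (hD : D ∈ NN T) {u : G} (hu : u ∈ T)
    (hM : LN M) (hDM : D ≤ M) (huM : u ∈ M) : D ⊔ zpowers u ∈ NN T := by
  have h1 : D ⊔ zpowers u = closure ((T ∩ (D : Set G)) ∪ {u}) := by
    rw [Subgroup.closure_union, hD.2, zpowers_eq_closure]
  rw [h1]
  apply closure_mem_NN _ _ hM
  · rintro x (hx | hx)
    · exact hx.1
    · rw [Set.mem_singleton_iff] at hx; rw [hx]; exact hu
  · rintro x (hx | hx)
    · exact hDM hx.2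
    · rw [Set.mem_singleton_iff] at hx; rw [hx]; exact huM

/-- an element of `T` normalising a maximal member belongs to it. -/
theorem Ctx.mem_of_normalizer (h : Ctx T) {M : Subgroup G} (hM : Maximal (· ∈ NN T) M) {u : G}
    (hu : u ∈ T) (hn : u ∈ normalizer (M : Set G)) : u ∈ M := by
  have h1 := lemE h.tf (h.nil hM.prop) (h.rf hM.prop) (h.lft u hu) hn
  have h2 := sup_mem_NN hM.prop hu (LN.of_isNilpotent h1) le_sup_left
    (mem_sup_right (mem_zpowers u))
  exact (hM.le_of_ge h2 le_sup_left) (mem_sup_right (mem_zpowers u))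

/-- the normaliser condition with elements of `T`. -/
theorem Ctx.exists_normalizer (h : Ctx T) {D M : Subgroup G} (hM : M ∈ NN T) (hDM : D ≤ M)
    (hD : closure (T ∩ (D : Set G)) = D) (hne : D ≠ M) :
    ∃ u ∈ T, u ∈ M ∧ u ∉ D ∧ u ∈ normalizer (D : Set G) := by
  classical
  obtain ⟨c, hc⟩ := h.nil hM
  let P : ℕ → Prop := fun i => ∃ u ∈ T, ∃ hu : u ∈ M,
    (⟨u, hu⟩ : M) ∈ D.subgroupOf M ⊔ Subgroup.upperCentralSeries M i ∧ u ∉ D
  have hPc : P c := by
    by_contra hcon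
    apply hne
    apply le_antisymm hDM
    rw [← hM.2, closure_le]
    rintro x ⟨hxT, hxM⟩
    by_contra hxD
    apply hcon
    refine ⟨x, hxT, hxM, ?_, hxD⟩
    rw [hc]
    simp
  have hP0 : ¬ P 0 := by
    rintro ⟨u, _, hu, h2, h3⟩
    rw [Subgroup.upperCentralSeries_zero, sup_bot_eq] at h2
    exact h3 h2
  obtain ⟨i, hi⟩ : ∃ i, Nat.find ⟨c, hPc⟩ = i + 1 := by
    apply Nat.exists_eq_succ_of_ne_zero
    intro h0
    apply hP0
    rw [← h0]
    exact Nat.find_spec ⟨c, hPc⟩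
  have hPi : P (i + 1) := by rw [← hi]; exact Nat.find_spec ⟨c, hPc⟩
  have hnPi : ¬ P i := Nat.find_min ⟨c, hPc⟩ (by rw [hi]; omega)
  obtain ⟨u, huT, huM, huL, huD⟩ := hPi
  refine ⟨u, huT, huM, huD, ?_⟩
  -- the whole group `L (i+1)` normalises `D`
  have key : (D.subgroupOf M ⊔ Subgroup.upperCentralSeries M (i + 1)).map M.subtype ≤
      normalizer ((closure (T ∩ (D : Set G)) : Subgroup G) : Set G) := by
    rw [le_normalizer_closure_iff]
    rintro _ ⟨g, hg, rfl⟩ x ⟨hxT, hxD⟩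
    apply Subgroup.subset_closure
    refine ⟨h.conj x hxT _, ?_⟩
    by_contra hcon
    apply hnPi
    have hxM : x ∈ M := hDM hxD
    have hgx : (M.subtype g) * x * (M.subtype g)⁻¹ ∈ M := M.mul_mem (M.mul_mem g.2 hxM)
      (M.inv_mem g.2)
    refine ⟨_, h.conj x hxT _, hgx, ?_, hcon⟩
    have hg' : g ∈ D.subgroupOf M ⊔ Subgroup.upperCentralSeries M (i + 1) := hg
    rw [mem_sup_of_normal_right] at hg' ⊢
    obtain ⟨d, hd, w, hw, rfl⟩ := hg'
    let x' : M := ⟨x, hxM⟩
    have hx' : x' ∈ D.subgroupOf M := hxD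
    -- `d w x w⁻¹ d⁻¹ = (d x d⁻¹) (d (x⁻¹ w x w⁻¹) d⁻¹)`
    refine ⟨d * x' * d⁻¹, mul_mem (mul_mem hd hx') (inv_mem hd),
      d * (x'⁻¹ * (⁅w, x'⁆) * x') * d⁻¹, ?_, ?_⟩
    · have h2 := hw x'
      have h3 := Normal.conj_mem (inferInstance : (Subgroup.upperCentralSeries M i).Normal) _
        h2 x'⁻¹
      rw [inv_inv] at h3
      exact Normal.conj_mem inferInstance _ h3 d
    · apply Subtype.ext
      rw [commutatorElement_def]
      simp only [x', coe_mul, coe_inv, coe_subtype]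
      group
  rw [hD] at key
  apply key
  exact ⟨⟨u, huM⟩, huL, rfl⟩

/-- elements of `⟨D, u⟩` have powers in `D`. -/
theorem pow_mem_of_sup {D : Subgroup G} {u : G} (hu : u ∈ normalizer (D : Set G)) {n : ℕ}
    (hun : u ^ n ∈ D) : ∀ g ∈ D ⊔ zpowers u, g ^ n ∈ D := by
  have hk : ∀ k : ℤ, ∀ d ∈ D, u ^ k * d * (u ^ k)⁻¹ ∈ D := by
    intro k d hd
    have h1 : u ^ k ∈ normalizer (D : Set G) := zpow_mem hu k
    exact (mem_normalizer_iff.1 h1 d).1 hd
  have h1 : D ⊔ zpowers u ≤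
      ({ carrier := {g | ∃ d ∈ D, ∃ k : ℤ, g = d * u ^ k}
         one_mem' := ⟨1, D.one_mem, 0, by simp⟩
         mul_mem' := by
          rintro _ _ ⟨d, hd, k, rfl⟩ ⟨e, he, l, rfl⟩
          refine ⟨d * (u ^ k * e * (u ^ k)⁻¹), D.mul_mem hd (hk k e he), k + l, ?_⟩
          rw [zpow_add]; group
         inv_mem' := by
          rintro _ ⟨d, hd, k, rfl⟩
          refine ⟨u ^ (-k) * d⁻¹ * (u ^ (-k))⁻¹, hk _ _ (D.inv_mem hd), -k, ?_⟩
          group } : Subgroup G) := by
    refine sup_le ?_ ?_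
    · intro d hd; exact ⟨d, hd, 0, by simp⟩
    · rw [zpowers_le]; exact ⟨1, D.one_mem, 1, by simp⟩
  intro g hg
  obtain ⟨d, hd, k, rfl⟩ := h1 hg
  have h2 : ∀ m : ℕ, ∃ e ∈ D, (d * u ^ k) ^ m = e * u ^ (k * m) := by
    intro m
    induction m with
    | zero => exact ⟨1, D.one_mem, by simp⟩
    | succ m ih =>
      obtain ⟨e, he, h3⟩ := ih
      refine ⟨e * (u ^ (k * m) * d * (u ^ (k * m))⁻¹), D.mul_mem he (hk _ d hd), ?_⟩
      rw [pow_succ, h3]
      push_cast
      rw [show k * ((m : ℤ) + 1) = k * m + k by ring, zpow_add]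
      group
  obtain ⟨e, he, h3⟩ := h2 n
  rw [h3]
  apply D.mul_mem he
  rw [mul_comm, zpow_mul, zpow_natCast]
  exact D.zpow_mem hun k

/-- the ascending chain condition modulo roots. -/
theorem Ctx.exists_acc (h : Ctx T) (𝒟 : Set (Subgroup G)) (h𝒟 : 𝒟 ⊆ NN T) (hne : 𝒟.Nonempty) :
    ∃ D ∈ 𝒟, ∀ D' ∈ 𝒟, D ≤ D' → ∀ x ∈ D', ∃ n : ℕ, 0 < n ∧ x ^ n ∈ D := by
  by_contra hcon
  push Not at hcon
  choose! f hf1 hf2 hf3 using hcon
  obtain ⟨D₀, hD₀⟩ := hne
  let s : ℕ → Subgroup G := fun n => f^[n] D₀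
  have hs : ∀ n, s n ∈ 𝒟 := by
    intro n
    induction n with
    | zero => exact hD₀
    | succ n ih =>
      change f^[n + 1] D₀ ∈ 𝒟
      rw [Function.iterate_succ_apply']
      exact hf1 _ ih
  have hss : ∀ n, s (n + 1) = f (s n) := fun n => Function.iterate_succ_apply' f n D₀
  have hmono : Monotone s := by
    apply monotone_nat_of_le_succ
    intro n
    rw [hss]
    exact hf2 _ (hs n)
  have hU : sSup (Set.range s) ∈ NN T := by
    apply sSup_mem_NN
    · rintro _ ⟨n, rfl⟩; exact h𝒟 (hs n)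
    · exact ⟨_, 0, rfl⟩
    · rintro _ ⟨m, rfl⟩ _ ⟨n, rfl⟩
      exact ⟨s (max m n), ⟨_, rfl⟩, hmono (le_max_left _ _), hmono (le_max_right _ _)⟩
  obtain ⟨ρ, hρ1, hρ2⟩ := h.rf hU
  have hle : ∀ n, s n ≤ sSup (Set.range s) := fun n => le_sSup ⟨n, rfl⟩
  have hρ : ∀ n, n ≤ ρ (s n) := by
    intro n
    induction n with
    | zero => exact Nat.zero_le _
    | succ n ih =>
      have h1 : ρ (s n) < ρ (s (n + 1)) := by
        apply lt_of_le_of_ne (hρ1 (hmono (Nat.le_succ n)))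
        intro he
        obtain ⟨x, hx, hx2⟩ := hf3 _ (hs n)
        rw [← hss] at hx
        obtain ⟨m, hm, hm2⟩ := hρ2 _ _ (hmono (Nat.le_succ n)) (hle _) he x hx
        exact hx2 m hm hm2
      omega
  have h2 := hρ (ρ (sSup (Set.range s)) + 1)
  have h3 := hρ1 (hle (ρ (sSup (Set.range s)) + 1))
  omega

end Pool.Agent.Helper98.Engel
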