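import Mathlib
import Pool.Agent.Helper98.Engel.Family

set_option autoImplicit false

namespace Pool.Agent.Helper98.Engel

open Subgroup
open scoped commutatorElement

universe u

variable {G : Type u} [Group G] {T : Set G}

/-- `D` is the subgroup generated by the common `T`-elements of two different maximal members. -/
def Pairs (T : Set G) : Set (Subgroup G) :=
  {D | ∃ M N : Subgroup G, Maximal (· ∈ NN T) M ∧ Maximal (· ∈ NN T) N ∧ M ≠ N ∧
    D = closure (T ∩ ((M ⊓ N : Subgroup G) : Set G))}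

theorem pairs_sub : Pairs T ⊆ NN T := by
  rintro _ ⟨M, N, hM, _, _, rfl⟩
  apply closure_mem_NN Set.inter_subset_left _ hM.prop.1
  rintro x ⟨_, hx⟩
  exact (mem_inf.1 hx).1

/-- comparison of two maximal members over `D`. -/
theorem eq_of_pairs {D D' M N : Subgroup G}
    (hmax : ∀ D' ∈ Pairs T, D ≤ D' → ∀ x ∈ D', ∃ n : ℕ, 0 < n ∧ x ^ n ∈ D)
    (hDT : closure (T ∩ (D : Set G)) = D) (hDD' : D ≤ D')
    (hM : Maximal (· ∈ NN T) M) (hN : Maximal (· ∈ NN T) N) (hDM : D' ≤ M) (hDN : D' ≤ N)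
    {u : G} (huT : u ∈ T) (huM : u ∈ M) (huN : u ∈ N) (hu : ∀ n : ℕ, 0 < n → u ^ n ∉ D') :
    M = N := by
  by_contra hne
  have h1 : D ≤ closure (T ∩ ((M ⊓ N : Subgroup G) : Set G)) := by
    rw [← hDT]
    apply Subgroup.closure_mono
    rintro x ⟨hx, hx2⟩
    exact ⟨hx, mem_inf.2 ⟨hDM (hDD' hx2), hDN (hDD' hx2)⟩⟩
  obtain ⟨n, hn, hn2⟩ := hmax _ ⟨M, N, hM, hN, hne, rfl⟩ h1 u
    (subset_closure ⟨huT, mem_inf.2 ⟨huM, huN⟩⟩)
  exact hu n hn (hDD' hn2)

/-- **Claim 1.** -/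
theorem Ctx.claim (h : Ctx T) {D D' M : Subgroup G}
    (hmax : ∀ D' ∈ Pairs T, D ≤ D' → ∀ x ∈ D', ∃ n : ℕ, 0 < n ∧ x ^ n ∈ D)
    (hDT : closure (T ∩ (D : Set G)) = D) (hDD' : D ≤ D')
    (hM : Maximal (· ∈ NN T) M) (hDM : D' ≤ M)
    {u : G} (huT : u ∈ T) (huM : u ∈ M) (hun : u ∈ normalizer (D' : Set G))
    (hu : ∀ n : ℕ, 0 < n → u ^ n ∉ D') {s : G} (hsT : s ∈ T)
    (hs : s ∈ normalizer (D' : Set G)) : s ∈ M := by
  -- if a conjugate of `u` by `g` lies in `M` then `g` normalises `M`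
  have hK : ∀ g ∈ normalizer (D' : Set G), g⁻¹ * u * g ∈ M → g ∈ normalizer (M : Set G) := by
    intro g hg hgu
    have h1 : M.map (MulAut.conj g).toMonoidHom = M := by
      refine (eq_of_pairs hmax hDT hDD' (N := M.map (MulAut.conj g).toMonoidHom) hM
        (conj_maximal h.conj hM g) hDM ?_ huT huM ?_ hu).symm
      · intro d hd
        refine ⟨g⁻¹ * d * g, hDM ?_, ?_⟩
        · exact (mem_normalizer_iff''.1 hg d).1 hd
        · change g * (g⁻¹ * d * g) * g⁻¹ = d
          group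
      · refine ⟨g⁻¹ * u * g, hgu, ?_⟩
        change g * (g⁻¹ * u * g) * g⁻¹ = u
        group
    exact mem_normalizer_iff_map_conj_eq.2 h1
  obtain ⟨k, hk⟩ := h.lft u huT s
  have hy : ∀ j, eng u j s ∈ normalizer (D' : Set G) := fun j => eng_mem hun hs j
  have key : ∀ m j : ℕ, j + m = k → (eng u j s)⁻¹ * u * eng u j s ∈ M := by
    intro m
    induction m with
    | zero =>
      intro j hj
      rw [add_zero] at hj
      rw [hj, hk]; simpa using huM
    | succ m ih =>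
      intro j hj
      have h1 := ih (j + 1) (by omega)
      have h2 := hK _ (hy (j + 1)) h1
      have h3 : (eng u j s)⁻¹ * u * eng u j s = u * (eng u (j + 1) s)⁻¹ := by
        rw [eng_succ]; group
      have h4 : (eng u j s)⁻¹ * u * eng u j s ∈ normalizer (M : Set G) := by
        rw [h3]
        exact mul_mem (le_normalizer huM) (inv_mem h2)
      apply h.mem_of_normalizer hM _ h4
      have := h.conj u huT (eng u j s)⁻¹
      rw [inv_inv] at this
      exact this
  have h1 := key k 0 (by omega)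
  rw [eng_zero] at h1
  exact h.mem_of_normalizer hM hsT (hK s hs h1)

/-- there is only one maximal member. -/
theorem Ctx.unique (h : Ctx T) {M₀ N₀ : Subgroup G} (hM₀ : Maximal (· ∈ NN T) M₀)
    (hN₀ : Maximal (· ∈ NN T) N₀) : M₀ = N₀ := by
  by_contra hne₀
  obtain ⟨D, hD, hmax⟩ := h.exists_acc (Pairs T) pairs_sub ⟨_, M₀, N₀, hM₀, hN₀, hne₀, rfl⟩
  have hDN := pairs_sub hD
  obtain ⟨M, N, hM, hN, hne, hDeq⟩ := hD
  have hmemD : ∀ x ∈ T, x ∈ M → x ∈ N → x ∈ D := by
    intro x hx h1 h2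
    rw [hDeq]; exact subset_closure ⟨hx, mem_inf.2 ⟨h1, h2⟩⟩
  have hDle : D ≤ M ⊓ N := by
    rw [hDeq, closure_le]; exact Set.inter_subset_right
  have hDM : D ≤ M := hDle.trans inf_le_left
  have hDN' : D ≤ N := hDle.trans inf_le_right
  have hneM : D ≠ M := by
    intro he
    apply hne
    apply le_antisymm (by rw [← he]; exact hDN')
    exact hM.le_of_ge hN.prop (by rw [← he]; exact hDN')
  have hneN : D ≠ N := by
    intro he
    apply hne
    apply le_antisymm
    · exact hN.le_of_ge hM.prop (by rw [← he]; exact hDM)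
    · rw [← he]; exact hDM
  obtain ⟨u, huT, huM, huD, hun⟩ := h.exists_normalizer hM.prop hDM hDN.2 hneM
  obtain ⟨v, hvT, hvN, hvD, hvn⟩ := h.exists_normalizer hN.prop hDN' hDN.2 hneN
  -- `v` has a power in `D`
  have hvp : ∃ n : ℕ, 0 < n ∧ v ^ n ∈ D := by
    by_contra hcon
    push Not at hcon
    have h1 := h.claim hmax hDN.2 le_rfl hN hDN' hvT hvN hvn hcon huT hun
    exact huD (hmemD u huT huM h1)
  -- the largest member inside the roots of `D`
  let 𝒦 : Set (Subgroup G) := {K | K ∈ NN T ∧ D ≤ K ∧ ∀ x ∈ K, ∃ n : ℕ, 0 < n ∧ x ^ n ∈ D}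
  have hDK : D ∈ 𝒦 := ⟨hDN, le_rfl, fun x hx => ⟨1, one_pos, by simpa using hx⟩⟩
  have hjoin : Group.IsNilpotent (sSup 𝒦 : Subgroup G) := by
    apply lemJ' h.tf (h.nil hDN) 𝒦 (fun K hK => ⟨hK.2.1, h.nil hK.1, hK.2.2⟩) ⟨D, hDK⟩
    intro y _ hyD K hK x hx
    have h1 : K ≤ centralizer {y} := by
      rw [← hK.1.2, closure_le]
      rintro s ⟨hsT, hsK⟩
      rw [SetLike.mem_coe, mem_centralizer_singleton_iff]
      obtain ⟨n, hn, hn2⟩ := hK.2.2 s hsK
      exact comm_of_pow_comm h.tf (h.lft s hsT) hn (hyD _ hn2).symm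
    exact (mem_centralizer_singleton_iff.1 (h1 hx)).symm
  have hle : ∀ K ∈ 𝒦, K ≤ sSup 𝒦 := fun K hK => le_sSup hK
  have hĎ : (sSup 𝒦 : Subgroup G) ∈ NN T := by
    refine ⟨LN.of_isNilpotent hjoin, le_antisymm ?_ ?_⟩
    · rw [closure_le]; exact Set.inter_subset_right
    · apply sSup_le
      intro K hK
      conv_lhs => rw [← hK.1.2]
      exact closure_mono (fun x hx => ⟨hx.1, hle K hK hx.2⟩)
  obtain ⟨M', hM'1, hM'⟩ := exists_maximal hĎ
  have hDM' : D ≤ M' := (hle D hDK).trans hM'1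
  -- `v ∈ M'`
  have hvM' : v ∈ M' := by
    obtain ⟨n, hn, hn2⟩ := hvp
    have h1 : D ⊔ zpowers v ∈ 𝒦 := by
      refine ⟨sup_mem_NN hDN hvT hN.prop.1 hDN' hvN, le_sup_left, ?_⟩
      intro x hx
      exact ⟨n, hn, pow_mem_of_sup hvn hn2 x hx⟩
    exact hM'1 (hle _ h1 (mem_sup_right (mem_zpowers v)))
  have hvM : v ∉ M := fun h1 => hvD (hmemD v hvT h1 hvN)
  have hneM' : M ≠ M' := by
    intro he; rw [he] at hvM; exact hvM hvM'
  -- the new pair
  let D' := closure (T ∩ ((M ⊓ M' : Subgroup G) : Set G))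
  have hD'P : D' ∈ Pairs T := ⟨M, M', hM, hM', hneM', rfl⟩
  have hD'N := pairs_sub hD'P
  have hDD' : D ≤ D' := by
    conv_lhs => rw [← hDN.2]
    apply Subgroup.closure_mono
    rintro x ⟨hx, hx2⟩
    exact ⟨hx, mem_inf.2 ⟨hDM hx2, hDM' hx2⟩⟩
  have hD'root := hmax D' hD'P hDD'
  have hmemD' : ∀ x ∈ T, x ∈ M → x ∈ M' → x ∈ D' := by
    intro x hx h1 h2
    exact subset_closure ⟨hx, mem_inf.2 ⟨h1, h2⟩⟩
  have hD'le : D' ≤ M ⊓ M' := by
    rw [closure_le]; exact Set.inter_subset_right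
  have hD'M : D' ≤ M := hD'le.trans inf_le_left
  have hD'M' : D' ≤ M' := hD'le.trans inf_le_right
  have hneD'M : D' ≠ M := by
    intro he
    apply hneM'
    apply le_antisymm (by rw [← he]; exact hD'M')
    exact hM.le_of_ge hM'.prop (by rw [← he]; exact hD'M')
  have hneD'M' : D' ≠ M' := by
    intro he
    apply hneM'
    apply le_antisymm
    · exact hM'.le_of_ge hM.prop (by rw [← he]; exact hD'M)
    · rw [← he]; exact hD'M
  obtain ⟨a, haT, haM, haD, han⟩ := h.exists_normalizer hM.prop hD'M hD'N.2 hneD'M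
  obtain ⟨b, hbT, hbM, hbD, hbn⟩ := h.exists_normalizer hM'.prop hD'M' hD'N.2 hneD'M'
  have hap : ∃ n : ℕ, 0 < n ∧ a ^ n ∈ D' := by
    by_contra hcon
    push Not at hcon
    have h1 := h.claim hmax hDN.2 hDD' hM hD'M haT haM han hcon hbT hbn
    exact hbD (hmemD' b hbT h1 hbM)
  obtain ⟨n, hn, hn2⟩ := hap
  have h1 : D' ⊔ zpowers a ∈ 𝒦 := by
    refine ⟨sup_mem_NN hD'N haT hM.prop.1 hD'M haM, hDD'.trans le_sup_left, ?_⟩
    intro x hx
    have h2 := pow_mem_of_sup han hn2 x hx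
    obtain ⟨m, hm, hm2⟩ := hD'root _ h2
    exact ⟨n * m, Nat.mul_pos hn hm, by rw [pow_mul]; exact hm2⟩
  have h2 : a ∈ M' := hM'1 (hle _ h1 (mem_sup_right (mem_zpowers a)))
  exact haD (hmemD' a haT haM h2)

/-- **Main theorem**, rank function form. -/
theorem Ctx.main (h : Ctx T) : Group.IsNilpotent (closure T : Subgroup G) := by
  have hbot : (⊥ : Subgroup G) ∈ NN T := by
    constructor
    · intro S hS
      have : closure (S : Set G) = ⊥ := by
        rw [eq_bot_iff, closure_le]; exact hS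
      rw [this]; infer_instance
    · rw [eq_bot_iff, closure_le]; exact Set.inter_subset_right
  obtain ⟨M, _, hM⟩ := exists_maximal hbot
  have h1 : T ⊆ (M : Set G) := by
    intro t ht
    have h2 : closure ({t} : Set G) ∈ NN T := by
      apply closure_mem_NN (M := zpowers t) (by simpa using ht)
      · simp
      · apply LN.of_isNilpotent
        let _ := IsCyclic.commGroup (α := zpowers t)
        have h3 : Group.IsNilpotent (zpowers t) := inferInstance
        exact h3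
    obtain ⟨N, hN1, hN⟩ := exists_maximal h2
    rw [h.unique hM hN]
    exact hN1 (subset_closure rfl)
  exact isNilpotent_of_le (by rw [closure_le]; exact h1) (h.nil hM.prop)

end Pool.Agent.Helper98.Engel
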