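import Mathlib
import Pool.Agent.Helper98.Engel.Defs
import Pool.Agent.Helper98.Engel.Main

set_option autoImplicit false

namespace Pool.Agent.Helper98.Engel.TorsionFree

open Pool.Agent.Helper98.Engel

universe u

/-- If the subgroup generated by the left Engel elements of `G` is torsion-free and all its abelian
subgroups have finite rank (in particular, if `G` is a torsion-free group of finite abelian
subgroup rank), then the set of left Engel elements is a nilpotent normal subgroup, and it is the
largest locally nilpotent normal subgroup of `G`. -/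
theorem result (G : Type u) [Group G]
    (htf : ∀ x ∈ engelClosure G, ∀ n : ℕ, 0 < n → x ^ n = 1 → x = 1)
    (hrk : ∀ A : Subgroup G, A ≤ engelClosure G → (∀ a ∈ A, ∀ b ∈ A, a * b = b * a) →
      FinRank A) :
    ∃ L : Subgroup G, (∀ g : G, g ∈ L ↔ IsLeftEngel g) ∧ L.Normal ∧ Group.IsNilpotent L ∧
      ∀ N : Subgroup G, N.Normal → LocallyNilpotent N → N ≤ L := by
  classical
  set H := engelClosure G with hH
  let T : Set H := {x | IsLeftEngel (x : G)}
  have hclo : Subgroup.closure T = ⊤ := by
    apply Subgroup.map_injective H.subtype_injective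
    rw [MonoidHom.map_closure, ← MonoidHom.range_eq_map, Subgroup.range_subtype]
    have h1 : (H.subtype '' T) = {g : G | IsLeftEngel g} := by
      ext g
      constructor
      · rintro ⟨x, hx, rfl⟩; exact hx
      · intro hg
        exact ⟨⟨g, Subgroup.subset_closure hg⟩, hg, rfl⟩
    rw [h1]
    rfl
  have hctx : Ctx T := by
    refine ⟨?_, ?_, ?_, ?_⟩
    · intro g n hn hgn
      apply Subtype.ext
      exact htf g g.2 n hn (by
        have := congrArg Subtype.val hgn
        simpa using this)
    · intro A hA
      apply RF.of_injOn H.subtype (B := A.map H.subtype)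
      · have hc : ∀ a ∈ A.map H.subtype, ∀ b ∈ A.map H.subtype, a * b = b * a := by
          rintro _ ⟨a, ha, rfl⟩ _ ⟨b, hb, rfl⟩
          rw [← map_mul, hA a ha b hb, map_mul]
        apply RF.of_finRank hc
        apply hrk _ _ hc
        rintro _ ⟨a, _, rfl⟩
        exact a.2
      · intro a ha
        exact ⟨a, ha, rfl⟩
      · intro a _ ha2
        exact Subtype.ext (by simpa using ha2)
    · intro t ht x
      obtain ⟨n, hn⟩ := ht (x : G)
      refine ⟨n, H.subtype_injective ?_⟩
      rw [map_eng, map_one]
      exact hn
    · intro t ht g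
      have h1 := IsLeftEngel.conj ht ((g : G)⁻¹)
      rw [inv_inv] at h1
      exact h1
  have hnil : Group.IsNilpotent H := by
    have h1 := hctx.main
    rw [hclo] at h1
    exact Group.isNilpotent_top.1 h1
  have hnorm : H.Normal := by
    constructor
    intro x hx g
    have h1 : H ≤ H.comap (MulAut.conj g).toMonoidHom := by
      conv_lhs => rw [hH, engelClosure]
      rw [Subgroup.closure_le]
      intro t ht
      have h2 := IsLeftEngel.conj ht g⁻¹
      rw [inv_inv] at h2
      exact Subgroup.subset_closure h2
    exact h1 hx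
  refine ⟨H, ?_, hnorm, hnil, ?_⟩
  · intro g
    constructor
    · intro hg x
      have h1 : x⁻¹ * g⁻¹ * x * g ∈ H := by
        have h2 := hnorm.conj_mem g⁻¹ (H.inv_mem hg) x⁻¹
        rw [inv_inv] at h2
        exact H.mul_mem h2 hg
      obtain ⟨n, hn⟩ := eng_of_nilpotent hnil hg h1
      exact ⟨n + 1, by rw [eng_succ']; exact hn⟩
    · intro hg
      exact Subgroup.subset_closure hg
  · intro N hN hLN g hg
    apply Subgroup.subset_closure
    intro x
    have h1 : x⁻¹ * g⁻¹ * x * g ∈ N := by
      have h2 := hN.conj_mem g⁻¹ (N.inv_mem hg) x⁻¹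
      rw [inv_inv] at h2
      exact N.mul_mem h2 hg
    set y := x⁻¹ * g⁻¹ * x * g
    have h2 := hLN (Subgroup.closure (({g, y} : Finset G) : Set G)) (by
      rw [Subgroup.closure_le]
      intro z hz
      simp only [Finset.coe_insert, Finset.coe_singleton, Set.mem_insert_iff,
        Set.mem_singleton_iff] at hz
      rcases hz with rfl | rfl
      · exact hg
      · exact h1) ⟨_, rfl⟩
    obtain ⟨n, hn⟩ := eng_of_nilpotent h2 (g := g) (x := y) (Subgroup.subset_closure (by simp))
      (Subgroup.subset_closure (by simp))
    exact ⟨n + 1, by rw [eng_succ']; exact hn⟩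

end Pool.Agent.Helper98.Engel.TorsionFree
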